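import Pool.Agent.H17.Pisier.Pisier

/-!
# From a quadratic form to a factorization through a Hilbert space
-/

set_option autoImplicit false
set_option maxSynthPendingDepth 3
set_option linter.style.haveILetI false
set_option linter.unusedVariables false
set_option linter.deprecated false
set_option linter.unusedSectionVars false

open scoped ENNReal
open MeasureTheory Filter Topology ProbabilityTheory

universe u

namespace Pool.Agent.H17.Pisier

section

variable {𝕜 : Type} [RCLike 𝕜] {X : Type u} [AddCommGroup X] [Module 𝕜 X] [Module ℝ X]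
  [IsScalarTower ℝ 𝕜 X]

/-- The `I`-invariant form. -/
noncomputable def bt (𝕜 : Type) [RCLike 𝕜] {X : Type u} [AddCommGroup X] [Module 𝕜 X]
    [Module ℝ X] (b : X →ₗ[ℝ] X →ₗ[ℝ] ℝ) (x y : X) : ℝ :=
  b x y + b ((RCLike.I : 𝕜) • x) ((RCLike.I : 𝕜) • y)

variable (b : X →ₗ[ℝ] X →ₗ[ℝ] ℝ) (hsymm : ∀ x y, b x y = b y x)

include hsymm in
theorem bt_symm (x y : X) : bt 𝕜 b x y = bt 𝕜 b y x := by
  unfold bt
  rw [hsymm x y, hsymm ((RCLike.I : 𝕜) • x)]

theorem bt_add_left (x y z : X) : bt 𝕜 b (x + y) z = bt 𝕜 b x z + bt 𝕜 b y z := by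
  unfold bt
  simp only [smul_add, map_add, LinearMap.add_apply]
  ring

theorem I_smul_real (r : ℝ) (x : X) : (RCLike.I : 𝕜) • r • x = r • (RCLike.I : 𝕜) • x :=
  smul_comm _ _ _

theorem bt_smul_left (r : ℝ) (x z : X) : bt 𝕜 b (r • x) z = r * bt 𝕜 b x z := by
  unfold bt
  rw [I_smul_real]
  simp only [map_smul, LinearMap.smul_apply, smul_eq_mul]
  ring

include hsymm in
theorem bt_I_right (x y : X) :
    bt 𝕜 b x ((RCLike.I : 𝕜) • y) = -bt 𝕜 b ((RCLike.I : 𝕜) • x) y := by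
  unfold bt
  rcases RCLike.I_mul_I_ax (K := 𝕜) with h | h
  · simp [h]
  · simp only [smul_smul, h, neg_smul, one_smul, map_neg, LinearMap.neg_apply]
    ring

theorem bt_I_I (h : (RCLike.I : 𝕜) * RCLike.I = -1) (x y : X) :
    bt 𝕜 b ((RCLike.I : 𝕜) • x) ((RCLike.I : 𝕜) • y) = bt 𝕜 b x y := by
  unfold bt
  simp only [smul_smul, h, neg_smul, one_smul, map_neg, LinearMap.neg_apply]
  ring

set_option linter.unusedVariables false in
/-- Type synonym of `X` carrying the semi-inner product. -/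
def QSp (𝕜 : Type) [RCLike 𝕜] {X : Type u} [AddCommGroup X] [Module 𝕜 X]
    [Module ℝ X] (b : X →ₗ[ℝ] X →ₗ[ℝ] ℝ) : Type u := X

instance : AddCommGroup (QSp 𝕜 b) := inferInstanceAs (AddCommGroup X)
instance : Module 𝕜 (QSp 𝕜 b) := inferInstanceAs (Module 𝕜 X)

/-- The identity map `X → QSp`. -/
def toQSp (𝕜 : Type) [RCLike 𝕜] {X : Type u} [AddCommGroup X] [Module 𝕜 X]
    [Module ℝ X] (b : X →ₗ[ℝ] X →ₗ[ℝ] ℝ) : X ≃ₗ[𝕜] QSp 𝕜 b := LinearEquiv.refl 𝕜 _

/-- The semi-inner product. -/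
noncomputable abbrev qCore (𝕜 : Type) [RCLike 𝕜] {X : Type u} [AddCommGroup X] [Module 𝕜 X]
    [Module ℝ X] [IsScalarTower ℝ 𝕜 X] (b : X →ₗ[ℝ] X →ₗ[ℝ] ℝ) (hsymm : ∀ x y, b x y = b y x)
    (hpos : ∀ x, 0 ≤ b x x) : PreInnerProductSpace.Core 𝕜 (QSp 𝕜 b) where
  inner x y := (bt 𝕜 b ((toQSp 𝕜 b).symm x) ((toQSp 𝕜 b).symm y) : 𝕜) -
    (bt 𝕜 b ((toQSp 𝕜 b).symm x) ((RCLike.I : 𝕜) • (toQSp 𝕜 b).symm y) : 𝕜) * RCLike.I
  conj_inner_symm x y := by
    rw [map_sub, map_mul, RCLike.conj_ofReal, RCLike.conj_ofReal, RCLike.conj_I,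
      bt_I_right b hsymm, bt_symm b hsymm, bt_symm b hsymm ((RCLike.I : 𝕜) • _)]
    push_cast
    ring
  re_inner_nonneg x := by
    rw [map_sub, RCLike.ofReal_re, RCLike.re_ofReal_mul, RCLike.I_re, mul_zero, sub_zero]
    exact add_nonneg (hpos _) (hpos _)
  add_left x y z := by
    rw [map_add, bt_add_left, bt_add_left]
    push_cast
    ring
  smul_left x y c := by
    set x' := (toQSp 𝕜 b).symm x with hx'
    set y' := (toQSp 𝕜 b).symm y with hy'
    have hc : (toQSp 𝕜 b).symm (c • x) = RCLike.re c • x' + RCLike.im c • (RCLike.I : 𝕜) • x' := by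
      rw [map_smul, ← hx']
      conv_lhs => rw [← RCLike.re_add_im c]
      rw [add_smul, mul_smul, ← RCLike.real_smul_eq_coe_smul, ← RCLike.real_smul_eq_coe_smul]
    rw [hc, bt_add_left, bt_add_left, bt_smul_left, bt_smul_left, bt_smul_left, bt_smul_left]
    have hconj : (starRingEnd 𝕜) c = (RCLike.re c : 𝕜) - (RCLike.im c : 𝕜) * RCLike.I := by
      conv_lhs => rw [← RCLike.re_add_im c]
      rw [map_add, map_mul, RCLike.conj_ofReal, RCLike.conj_ofReal, RCLike.conj_I]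
      ring
    rw [hconj]
    rcases RCLike.I_mul_I_ax (K := 𝕜) with h | h
    · have h0 : RCLike.im c = 0 := by
        have := RCLike.im_eq_zero (K := 𝕜) h c
        exact this
      simp [h, h0]
    · rw [bt_I_I b h, bt_I_right b hsymm]
      push_cast
      linear_combination ((RCLike.im c : 𝕜) * (bt 𝕜 b ((RCLike.I : 𝕜) • x') y' : 𝕜)) * h


end

section

variable {𝕜 : Type} [RCLike 𝕜] {X X' Z : Type u} [NormedAddCommGroup X] [NormedSpace 𝕜 X]
  [AddCommGroup X'] [Module 𝕜 X'] [NormedAddCommGroup Z] [NormedSpace 𝕜 Z] [CompleteSpace Z]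

theorem factor_of_core (T : X →L[𝕜] Z) (c : PreInnerProductSpace.Core 𝕜 X') (e : X ≃ₗ[𝕜] X')
    (K : ℝ) (h1 : ∀ x, RCLike.re (c.inner (e x) (e x)) ≤ K * ‖x‖ ^ 2)
    (h2 : ∀ x, ‖T x‖ ^ 2 ≤ RCLike.re (c.inner (e x) (e x))) :
    ∃ (H : Type u) (_ : NormedAddCommGroup H) (_ : InnerProductSpace 𝕜 H) (_ : CompleteSpace H)
      (R : X →L[𝕜] H) (A : H →L[𝕜] Z), T = A ∘L R := by
  letI : SeminormedAddCommGroup X' := InnerProductSpace.Core.toSeminormedAddCommGroup (c := c)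
  letI : InnerProductSpace 𝕜 X' := InnerProductSpace.ofCore c
  have hn : ∀ y : X', ‖y‖ ^ 2 = RCLike.re (c.inner y y) := fun y => by
    have := @InnerProductSpace.norm_sq_eq_re_inner 𝕜 X' _ _ _ y
    exact this
  refine ⟨UniformSpace.Completion X', inferInstance, inferInstance, inferInstance, ?_⟩
  have hK : ∀ x, ‖e x‖ ≤ √(max K 0) * ‖x‖ := fun x => by
    apply le_of_sq_le_sq _ (by positivity)
    rw [mul_pow, Real.sq_sqrt (le_max_right _ _), hn]
    refine (h1 x).trans ?_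
    gcongr
    exact le_max_left _ _
  let R₀ : X →L[𝕜] X' := e.toLinearMap.mkContinuous (√(max K 0)) hK
  let R : X →L[𝕜] UniformSpace.Completion X' := UniformSpace.Completion.toComplL.comp R₀
  have hR : ∀ x, ‖R x‖ = ‖e x‖ := fun x => UniformSpace.Completion.norm_coe (e x)
  have hdense : DenseRange R := by
    have : (R : X → UniformSpace.Completion X') = (fun y : X' => (y : UniformSpace.Completion X')) ∘ e :=
      rfl
    rw [this]
    exact (UniformSpace.Completion.denseRange_coe).comp e.surjective.denseRange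
      (UniformSpace.Completion.continuous_coe X')
  have hb : ∀ x, ‖T x‖ ≤ 1 * ‖R x‖ := fun x => by
    rw [one_mul, hR]
    apply le_of_sq_le_sq _ (norm_nonneg _)
    rw [hn]
    exact h2 x
  refine ⟨R, T.toLinearMap.extendOfNorm R.toLinearMap, ?_⟩
  ext x
  exact (LinearMap.extendOfNorm_eq (f := T.toLinearMap) (e := R.toLinearMap) hdense ⟨1, hb⟩ x).symm

end

section

variable {𝕜 : Type} [RCLike 𝕜] {X Z : Type u} [NormedAddCommGroup X] [NormedSpace 𝕜 X]
  [NormedSpace ℝ X] [IsScalarTower ℝ 𝕜 X]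
  [NormedAddCommGroup Z] [NormedSpace 𝕜 Z] [CompleteSpace Z] [NormedSpace ℝ Z]
  [IsScalarTower ℝ 𝕜 Z]

theorem factor_of_kw (T : X →L[𝕜] Z) (κ : ℝ) (hT : Kw (X := X) (Y := Z) (T.restrictScalars ℝ) κ) :
    ∃ (H : Type u) (_ : NormedAddCommGroup H) (_ : InnerProductSpace 𝕜 H) (_ : CompleteSpace H)
      (R : X →L[𝕜] H) (A : H →L[𝕜] Z), T = A ∘L R := by
  obtain ⟨b, hsymm, hb⟩ := exists_form hT
  have hpos : ∀ x, 0 ≤ b x x := fun x => (sq_nonneg _).trans (hb x).1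
  have key : ∀ x, RCLike.re ((qCore 𝕜 b hsymm hpos).inner (toQSp 𝕜 b x) (toQSp 𝕜 b x)) =
      b x x + b ((RCLike.I : 𝕜) • x) ((RCLike.I : 𝕜) • x) := fun x => by
    have : (qCore 𝕜 b hsymm hpos).inner (toQSp 𝕜 b x) (toQSp 𝕜 b x) =
      (bt 𝕜 b x x : 𝕜) - (bt 𝕜 b x ((RCLike.I : 𝕜) • x) : 𝕜) * RCLike.I := rfl
    rw [this, map_sub, RCLike.ofReal_re, RCLike.re_ofReal_mul, RCLike.I_re, mul_zero, sub_zero]
    rfl
  refine factor_of_core T (qCore 𝕜 b hsymm hpos) (toQSp 𝕜 b) (2 * |κ|) ?_ ?_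
  · intro x
    rw [key]
    have h1 := (hb x).2
    have h2 := (hb ((RCLike.I : 𝕜) • x)).2
    have h3 : ‖(RCLike.I : 𝕜) • x‖ ≤ ‖x‖ := by
      rw [norm_smul]
      have : ‖(RCLike.I : 𝕜)‖ ≤ 1 := by
        rw [RCLike.norm_I]
        split_ifs <;> norm_num
      nlinarith [norm_nonneg x]
    have h4 : ‖(RCLike.I : 𝕜) • x‖ ^ 2 ≤ ‖x‖ ^ 2 := by gcongr
    have h5 : κ * ‖x‖ ^ 2 ≤ |κ| * ‖x‖ ^ 2 := by gcongr; exact le_abs_self _
    have h6 : κ * ‖(RCLike.I : 𝕜) • x‖ ^ 2 ≤ |κ| * ‖x‖ ^ 2 := by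
      refine (mul_le_mul_of_nonneg_right (le_abs_self _) (sq_nonneg _)).trans ?_
      gcongr
    linarith
  · intro x
    rw [key]
    have h1 := (hb x).1
    have h2 := hpos ((RCLike.I : 𝕜) • x)
    have h3 : ‖(T.restrictScalars ℝ) x‖ = ‖T x‖ := rfl
    rw [h3] at h1
    linarith

end

end Pool.Agent.H17.Pisier
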