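import Mathlib

/-!
# Kwapień's criterion: from a domination inequality to a quadratic form
-/

set_option autoImplicit false
set_option maxSynthPendingDepth 3
set_option linter.style.haveILetI false
set_option linter.unusedVariables false
set_option linter.deprecated false

open scoped ENNReal
open MeasureTheory Filter Topology

namespace Pool.Agent.H17.Pisier

section

variable {X Y : Type*} [NormedAddCommGroup X] [NormedSpace ℝ X]
  [NormedAddCommGroup Y] [NormedSpace ℝ Y]

/-- The function `f ↦ f(x) f(y)` on the dual. -/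
def psi (x y : X) : StrongDual ℝ X → ℝ := fun f => f x * f y

/-- The function `f ↦ f(x)²` on the dual. -/
def phi (x : X) : StrongDual ℝ X → ℝ := fun f => f x * f x

/-- Kwapień's condition. -/
def Kw (u : X →L[ℝ] Y) (κ : ℝ) : Prop :=
  ∀ l l' : List X, (l.map phi).sum = (l'.map phi).sum →
    (l.map fun x => ‖u x‖ ^ 2).sum ≤ κ * (l'.map fun x => ‖x‖ ^ 2).sum

theorem phi_smul (c : ℝ) (x : X) : phi (c • x) = c ^ 2 • phi x := by
  funext f
  simp [phi]
  ring

theorem psi_eq (x y : X) : psi x y = (4 : ℝ)⁻¹ • (phi (x + y) - phi (x - y)) := by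
  funext f
  simp [psi, phi]
  ring

theorem map_phi_smul_sum (c : ℝ) (l : List X) :
    ((l.map fun x => c • x).map phi).sum = c ^ 2 • (l.map phi).sum := by
  induction l with
  | nil => simp
  | cons a l ih =>
    simp only [List.map_cons, List.sum_cons, phi_smul, smul_add] at *
    rw [ih]

theorem map_norm_smul_sum {Z : Type*} [NormedAddCommGroup Z] [NormedSpace ℝ Z]
    (u : X →L[ℝ] Z) (c : ℝ) (l : List X) :
    ((l.map fun x => c • x).map fun x => ‖u x‖ ^ 2).sum =
      c ^ 2 * (l.map fun x => ‖u x‖ ^ 2).sum := by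
  induction l with
  | nil => simp
  | cons a l ih =>
    simp only [List.map_cons, List.sum_cons, map_smul, norm_smul, Real.norm_eq_abs, mul_add] at *
    rw [ih, mul_pow, sq_abs]

theorem map_norm_smul_sum' (c : ℝ) (l : List X) :
    ((l.map fun x => c • x).map fun x => ‖x‖ ^ 2).sum =
      c ^ 2 * (l.map fun x => ‖x‖ ^ 2).sum :=
  map_norm_smul_sum (ContinuousLinearMap.id ℝ X) c l

variable (X) in
/-- The span of the functions `phi x`. -/
def spanPhi : Submodule ℝ (StrongDual ℝ X → ℝ) := Submodule.span ℝ (Set.range (phi (X := X)))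

theorem phi_mem (x : X) : phi x ∈ spanPhi X := Submodule.subset_span ⟨x, rfl⟩

theorem psi_mem (x y : X) : psi x y ∈ spanPhi X := by
  rw [psi_eq]
  exact Submodule.smul_mem _ _ (Submodule.sub_mem _ (phi_mem _) (phi_mem _))

theorem exists_lists {φ : StrongDual ℝ X → ℝ} (hφ : φ ∈ spanPhi X) :
    ∃ l l' : List X, φ = (l.map phi).sum - (l'.map phi).sum := by
  induction hφ using Submodule.span_induction with
  | mem x h =>
    obtain ⟨x, rfl⟩ := h
    exact ⟨[x], [], by simp⟩
  | zero => exact ⟨[], [], by simp⟩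
  | add x y hx hy ihx ihy =>
    obtain ⟨l₁, l₁', h₁⟩ := ihx
    obtain ⟨l₂, l₂', h₂⟩ := ihy
    refine ⟨l₁ ++ l₂, l₁' ++ l₂', ?_⟩
    rw [h₁, h₂]
    simp only [List.map_append, List.sum_append]
    abel
  | smul c x hx ih =>
    obtain ⟨l, l', h⟩ := ih
    rcases le_total 0 c with hc | hc
    · refine ⟨l.map fun x => √c • x, l'.map fun x => √c • x, ?_⟩
      rw [map_phi_smul_sum, map_phi_smul_sum, Real.sq_sqrt hc, h, smul_sub]
    · refine ⟨l'.map fun x => √(-c) • x, l.map fun x => √(-c) • x, ?_⟩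
      rw [map_phi_smul_sum, map_phi_smul_sum, Real.sq_sqrt (by linarith), h, smul_sub]
      simp only [neg_smul]
      abel

/-- The cone used in the Hahn–Banach argument. -/
def cone (u : X →L[ℝ] Y) (κ : ℝ) : PointedCone ℝ (spanPhi X × ℝ) where
  carrier := {v | ∃ l l' : List X, (v.1 : StrongDual ℝ X → ℝ) = (l.map phi).sum - (l'.map phi).sum ∧
    -(l.map fun x => ‖u x‖ ^ 2).sum + κ * (l'.map fun x => ‖x‖ ^ 2).sum ≤ v.2}
  add_mem' := by
    rintro v w ⟨l₁, l₁', h₁, h₁'⟩ ⟨l₂, l₂', h₂, h₂'⟩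
    refine ⟨l₁ ++ l₂, l₁' ++ l₂', ?_, ?_⟩
    · simp only [Prod.fst_add, Submodule.coe_add, List.map_append, List.sum_append]
      rw [h₁, h₂]
      abel
    · simp only [Prod.snd_add, List.map_append, List.sum_append]
      linarith
  zero_mem' := ⟨[], [], by simp, by simp⟩
  smul_mem' := by
    rintro ⟨c, hc⟩ v ⟨l, l', h, h'⟩
    refine ⟨l.map fun x => √c • x, l'.map fun x => √c • x, ?_, ?_⟩
    · rw [map_phi_smul_sum, map_phi_smul_sum, Real.sq_sqrt hc]
      change (c • (v.1 : StrongDual ℝ X → ℝ)) = _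
      rw [h, smul_sub]
    · rw [map_norm_smul_sum, map_norm_smul_sum', Real.sq_sqrt hc]
      change _ ≤ c * v.2
      have := mul_le_mul_of_nonneg_left h' hc
      linarith

theorem mem_cone {u : X →L[ℝ] Y} {κ : ℝ} {v : spanPhi X × ℝ} :
    v ∈ cone u κ ↔ ∃ l l' : List X,
      (v.1 : StrongDual ℝ X → ℝ) = (l.map phi).sum - (l'.map phi).sum ∧
      -(l.map fun x => ‖u x‖ ^ 2).sum + κ * (l'.map fun x => ‖x‖ ^ 2).sum ≤ v.2 := Iff.rfl

/-- **Kwapień's theorem**, in terms of quadratic forms. -/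
theorem exists_form {u : X →L[ℝ] Y} {κ : ℝ} (hu : Kw u κ) :
    ∃ b : X →ₗ[ℝ] X →ₗ[ℝ] ℝ, (∀ x y, b x y = b y x) ∧
      ∀ x, ‖u x‖ ^ 2 ≤ b x x ∧ b x x ≤ κ * ‖x‖ ^ 2 := by
  set D : Submodule ℝ (spanPhi X × ℝ) := LinearMap.ker (LinearMap.fst ℝ (spanPhi X) ℝ) with hD
  set f : (spanPhi X × ℝ) →ₗ.[ℝ] ℝ :=
    ⟨D, (LinearMap.snd ℝ (spanPhi X) ℝ).domRestrict D⟩ with hf
  obtain ⟨g, hg1, hg2⟩ := riesz_extension (cone u κ) f (by
      rintro ⟨v, hv⟩ hv'
      obtain ⟨l, l', h, h'⟩ := mem_cone.mp hv'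
      have hv1 : v.1 = 0 := hv
      have h0 : (l.map phi).sum = (l'.map phi).sum := by
        have h2 : ((v.1 : spanPhi X) : StrongDual ℝ X → ℝ) = 0 := by rw [hv1]; rfl
        have h3 : (l.map phi).sum - (l'.map phi).sum = (0 : StrongDual ℝ X → ℝ) := by
          rw [← h2]; exact h.symm
        exact sub_eq_zero.mp h3
      have h1 := hu l l' h0
      change (0 : ℝ) ≤ v.2
      linarith) (by
      rintro ⟨φ, s⟩
      obtain ⟨l, l', h⟩ := exists_lists φ.2
      refine ⟨⟨(0, -(l.map fun x => ‖u x‖ ^ 2).sum + κ * (l'.map fun x => ‖x‖ ^ 2).sum - s), rfl⟩,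
        ?_⟩
      refine mem_cone.mpr ⟨l, l', ?_, ?_⟩
      · simpa using h
      · simp)
  have hg1' : ∀ t : ℝ, g (0, t) = t := fun t => hg1 ⟨(0, t), rfl⟩
  set L : spanPhi X →ₗ[ℝ] ℝ := g ∘ₗ LinearMap.inl ℝ (spanPhi X) ℝ with hL
  have hg3 : ∀ (φ : spanPhi X) (t : ℝ), g (φ, t) = L φ + t := by
    intro φ t
    have h1 : ((φ, t) : spanPhi X × ℝ) = (φ, 0) + (0, t) := by simp
    rw [h1, map_add, hg1']
    rfl
  refine ⟨LinearMap.mk₂ ℝ (fun x y => L ⟨psi x y, psi_mem x y⟩) ?_ ?_ ?_ ?_, ?_, ?_⟩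
  · intro x y z
    rw [← map_add]
    congr 1
    apply Subtype.ext
    funext f
    simp [psi]
    ring
  · intro c x z
    rw [← map_smul]
    congr 1
    apply Subtype.ext
    funext f
    simp [psi]
    ring
  · intro x y z
    rw [← map_add]
    congr 1
    apply Subtype.ext
    funext f
    simp [psi]
    ring
  · intro c x z
    rw [← map_smul]
    congr 1
    apply Subtype.ext
    funext f
    simp [psi]
    ring
  · intro x y
    simp only [LinearMap.mk₂_apply]
    congr 1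
    apply Subtype.ext
    funext f
    simp only [psi]
    ring
  · intro x
    simp only [LinearMap.mk₂_apply]
    constructor
    · have h1 : ((⟨psi x x, psi_mem x x⟩ : spanPhi X), -‖u x‖ ^ 2) ∈ cone u κ :=
        mem_cone.mpr ⟨[x], [], by simp [psi, phi]; rfl, by simp⟩
      have h2 := hg2 _ h1
      rw [hg3] at h2
      linarith
    · have h1 : (-(⟨psi x x, psi_mem x x⟩ : spanPhi X), κ * ‖x‖ ^ 2) ∈ cone u κ :=
        mem_cone.mpr ⟨[], [x], by simp [psi, phi]; rfl, by simp⟩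
      have h2 := hg2 _ h1
      rw [hg3, map_neg] at h2
      linarith

end

end Pool.Agent.H17.Pisier
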