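import Pool.Agent.H17.Pisier.Riesz
import Pool.Agent.H17.Pisier.Kwapien

/-!
# The Riesz product estimate and cotype for symmetric random variables
-/

set_option autoImplicit false
set_option maxSynthPendingDepth 3
set_option linter.style.haveILetI false
set_option linter.unusedVariables false
set_option linter.deprecated false
set_option linter.unusedSectionVars false

open scoped ENNReal
open MeasureTheory Filter Topology

namespace Pool.Agent.H17.Pisier

variable {X Y : Type*} [NormedAddCommGroup X] [NormedSpace ℝ X]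
  [NormedAddCommGroup Y] [NormedSpace ℝ Y]

theorem coef_map {n : ℕ} (u : X →L[ℝ] Y) (Φ : Cube n → X) (A : Finset (Fin n)) :
    coef (fun ω => u (Φ ω)) A = u (coef Φ A) := by
  unfold coef avg
  rw [map_smul, map_sum]
  simp only [map_smul]

theorem walsh_empty {n : ℕ} (ω : Cube n) : walsh ∅ ω = 1 := by
  unfold walsh
  simp

theorem kern_zero {n : ℕ} (ω : Cube n) : kern (fun _ => 0) ω = 1 := by
  unfold kern
  simp

theorem norm_coef_empty_le {n : ℕ} (Φ : Cube n → X) :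
    ‖coef Φ ∅‖ ^ 2 ≤ avg fun ω => ‖Φ ω‖ ^ 2 := by
  have h := norm_avg_kern_le (t := fun _ : Fin n => (0 : ℝ)) (by simp) Φ
  simp only [kern_zero, one_smul, one_mul] at h
  unfold coef
  simp only [walsh_empty, one_smul]
  exact h

theorem norm_sub_sub_sq_le (p q r : Y) :
    ‖p - q - r‖ ^ 2 ≤ 3 * (‖p‖ ^ 2 + ‖q‖ ^ 2 + ‖r‖ ^ 2) := by
  have h1 : ‖p - q - r‖ ≤ ‖p‖ + ‖q‖ + ‖r‖ :=
    (norm_sub_le _ _).trans (by gcongr; exact norm_sub_le _ _)
  have h2 : ‖p - q - r‖ ^ 2 ≤ (‖p‖ + ‖q‖ + ‖r‖) ^ 2 := by gcongr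
  nlinarith [sq_nonneg (‖p‖ - ‖q‖), sq_nonneg (‖q‖ - ‖r‖), sq_nonneg (‖p‖ - ‖r‖)]

theorem ff_eq {n : ℕ} {A : Finset (Fin n)} (hA : A.card ≠ 1) (δ : ℝ) (g : Fin n → ℝ) :
    ff A δ g = ∏ j ∈ A, sc δ (g j) := by
  unfold ff tt
  simp only [hA, if_false]

theorem ff_singleton {n : ℕ} (j : Fin n) (δ : ℝ) (g : Fin n → ℝ) :
    ff {j} δ g = sc δ (g j) - δ * g j := by
  unfold ff tt
  simp

/-- The expansion of the Riesz product. -/
theorem expansion {n : ℕ} (δ : ℝ) (g : Fin n → ℝ) (v : Finset (Fin n) → Y) :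
    δ • ∑ j, g j • v {j} = (∑ A, (∏ j ∈ A, sc δ (g j)) • v A) - v ∅ -
      ∑ A ∈ Finset.univ.erase ∅, ff A δ g • v A := by
  classical
  have h1 : ∑ A, (∏ j ∈ A, sc δ (g j)) • v A = v ∅ +
      ∑ A ∈ Finset.univ.erase ∅, (∏ j ∈ A, sc δ (g j)) • v A := by
    rw [← Finset.add_sum_erase _ _ (Finset.mem_univ (∅ : Finset (Fin n)))]
    simp
  have h2 : ∑ A ∈ Finset.univ.erase ∅, ((∏ j ∈ A, sc δ (g j)) - ff A δ g) • v A =
      ∑ A ∈ (Finset.univ : Finset (Fin n)).image (fun j => ({j} : Finset (Fin n))),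
        ((∏ j ∈ A, sc δ (g j)) - ff A δ g) • v A := by
    symm
    refine Finset.sum_subset ?_ ?_
    · intro A hA
      obtain ⟨j, -, rfl⟩ := Finset.mem_image.mp hA
      simp
    · intro A hA hA'
      have hc : A.card ≠ 1 := by
        intro hc
        obtain ⟨j, rfl⟩ := Finset.card_eq_one.mp hc
        exact hA' (Finset.mem_image.mpr ⟨j, Finset.mem_univ _, rfl⟩)
      rw [ff_eq hc, sub_self, zero_smul]
  have h3 : ∑ A ∈ (Finset.univ : Finset (Fin n)).image (fun j => ({j} : Finset (Fin n))),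
        ((∏ j ∈ A, sc δ (g j)) - ff A δ g) • v A = δ • ∑ j, g j • v {j} := by
    rw [Finset.sum_image (by intro a _ b _ hab; simpa using hab), Finset.smul_sum]
    refine Finset.sum_congr rfl fun j _ => ?_
    rw [ff_singleton, smul_smul]
    congr 1
    simp
  rw [h1]
  have h4 : v ∅ + ∑ A ∈ Finset.univ.erase ∅, (∏ j ∈ A, sc δ (g j)) • v A - v ∅ -
      ∑ A ∈ Finset.univ.erase ∅, ff A δ g • v A =
      ∑ A ∈ Finset.univ.erase ∅, ((∏ j ∈ A, sc δ (g j)) - ff A δ g) • v A := by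
    simp only [sub_smul, Finset.sum_sub_distrib]
    abel
  rw [h4, h2, h3]

variable {ν : Measure ℝ} [IsProbabilityMeasure ν]

theorem Good.integrable_sc (h : Good ν) (δ : ℝ) : Integrable (sc δ) ν := h.integrable_tt 0 δ

theorem Good.integrable_kern (h : Good ν) {n : ℕ} (δ : ℝ) (ω : Cube n) :
    Integrable (fun g : Fin n → ℝ => kern (fun j => sc δ (g j)) ω)
      (Measure.pi fun _ : Fin n => ν) := by
  unfold kern
  exact Integrable.fintype_prod (f := fun (j : Fin n) x => 1 + sc δ x * sg (ω j))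
    fun i => (integrable_const 1).add ((h.integrable_sc δ).mul_const _)

theorem Good.integral_kern (h : Good ν) {n : ℕ} (δ : ℝ) (ω : Cube n) :
    ∫ g : Fin n → ℝ, kern (fun j => sc δ (g j)) ω ∂(Measure.pi fun _ : Fin n => ν) = 1 := by
  unfold kern
  rw [integral_fintype_prod_eq_prod (fun (j : Fin n) x => 1 + sc δ x * sg (ω j))]
  refine Finset.prod_eq_one fun i _ => ?_
  rw [integral_add (integrable_const 1) ((h.integrable_sc δ).mul_const _), integral_mul_const,
    h.integral_odd (fun x => sc_neg δ x)]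
  simp

theorem integral_add_const_add {Ω : Type*} [MeasurableSpace Ω] {μ : Measure Ω}
    [IsProbabilityMeasure μ] {p q : Ω → ℝ} (hp : Integrable p μ) (hq : Integrable q μ) (c : ℝ) :
    ∫ g, (p g + c + q g) ∂μ = ∫ g, p g ∂μ + c + ∫ g, q g ∂μ := by
  rw [integral_add (f := fun g => p g + c) (hp.add (integrable_const _)) hq,
    integral_add hp (integrable_const _)]
  simp

theorem riesz_bound (h : Good ν) {u : X →L[ℝ] Y} {κ δ : ℝ} (b : X →ₗ[ℝ] X →ₗ[ℝ] ℝ)
    (hb1 : ∀ x, ‖u x‖ ^ 2 ≤ b x x) (hb2 : ∀ x, b x x ≤ κ * ‖x‖ ^ 2) (hδ0 : 0 < δ)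
    (hδ1 : δ ≤ 1) {n : ℕ} (Φ : Cube n → X) :
    ∫ g : Fin n → ℝ, ‖∑ j, g j • u (coef Φ {j})‖ ^ 2 ∂(Measure.pi fun _ : Fin n => ν) ≤
      (6 * ‖u‖ ^ 2 / δ ^ 2 + 3 * M4 ν * δ ^ 2 * κ) * avg fun ω => ‖Φ ω‖ ^ 2 := by
  classical
  set μ := Measure.pi fun _ : Fin n => ν with hμ
  set a : ℝ := avg fun ω => ‖Φ ω‖ ^ 2 with ha
  have ha0 : 0 ≤ a := avg_nonneg fun ω => by positivity
  set S : Finset (Finset (Fin n)) := Finset.univ.erase ∅ with hS
  set G : (Fin n → ℝ) → ℝ := fun g =>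
    3 * ((avg fun ω => kern (fun j => sc δ (g j)) ω * ‖u (Φ ω)‖ ^ 2) + ‖u‖ ^ 2 * a +
      ∑ A ∈ S, ∑ B ∈ S, ff A δ g * ff B δ g * b (coef Φ A) (coef Φ B)) with hG
  -- pointwise bound
  have hpt : ∀ g : Fin n → ℝ, δ ^ 2 * ‖∑ j, g j • u (coef Φ {j})‖ ^ 2 ≤ G g := by
    intro g
    have h1 : δ ^ 2 * ‖∑ j, g j • u (coef Φ {j})‖ ^ 2 = ‖δ • ∑ j, g j • u (coef Φ {j})‖ ^ 2 := by
      rw [norm_smul, mul_pow, Real.norm_eq_abs, sq_abs]
    rw [h1, expansion δ g fun A => u (coef Φ A)]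
    refine (norm_sub_sub_sq_le _ _ _).trans ?_
    rw [hG]
    simp only
    gcongr
    · have h2 : ∑ A, (∏ j ∈ A, sc δ (g j)) • u (coef Φ A) =
          avg fun ω => kern (fun j => sc δ (g j)) ω • u (Φ ω) := by
        rw [avg_kern_smul]
        simp only [coef_map]
      rw [h2]
      exact norm_avg_kern_le (fun j => abs_sc_le_one δ (g j)) _
    · have h3 : ‖u (coef Φ ∅)‖ ≤ ‖u‖ * ‖coef Φ ∅‖ := u.le_opNorm _
      calc ‖u (coef Φ ∅)‖ ^ 2 ≤ (‖u‖ * ‖coef Φ ∅‖) ^ 2 := by gcongr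
        _ = ‖u‖ ^ 2 * ‖coef Φ ∅‖ ^ 2 := by ring
        _ ≤ ‖u‖ ^ 2 * a := by gcongr; exact norm_coef_empty_le Φ
    · have h4 : ∑ A ∈ S, ff A δ g • u (coef Φ A) = u (∑ A ∈ S, ff A δ g • coef Φ A) := by
        rw [map_sum]
        simp only [map_smul]
      rw [h4]
      refine (hb1 _).trans (le_of_eq ?_)
      simp only [map_sum, map_smul, LinearMap.sum_apply, LinearMap.smul_apply, smul_eq_mul]
      rw [Finset.sum_comm]
      refine Finset.sum_congr rfl fun A _ => ?_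
      rw [Finset.mul_sum]
      refine Finset.sum_congr rfl fun B _ => ?_
      ring
  -- integrability of the dominating function
  have hI1 : Integrable (fun g : Fin n → ℝ =>
      avg fun ω => kern (fun j => sc δ (g j)) ω * ‖u (Φ ω)‖ ^ 2) μ := by
    unfold avg
    simp only [smul_eq_mul]
    exact (integrable_finset_sum _ fun ω _ => (h.integrable_kern δ ω).mul_const _).const_mul _
  have hI2 : Integrable (fun g : Fin n → ℝ =>
      ∑ A ∈ S, ∑ B ∈ S, ff A δ g * ff B δ g * b (coef Φ A) (coef Φ B)) μ :=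
    integrable_finset_sum _ fun A _ => integrable_finset_sum _ fun B _ =>
      (h.integrable_ff_mul A B δ).mul_const _
  have hGint : Integrable G μ := ((hI1.add (integrable_const _)).add hI2).const_mul 3
  -- integral of the dominating function
  have hJ1 : ∫ g : Fin n → ℝ, (avg fun ω => kern (fun j => sc δ (g j)) ω * ‖u (Φ ω)‖ ^ 2) ∂μ ≤
      ‖u‖ ^ 2 * a := by
    have h5 : ∫ g : Fin n → ℝ, (avg fun ω => kern (fun j => sc δ (g j)) ω * ‖u (Φ ω)‖ ^ 2) ∂μ =
        avg fun ω => ‖u (Φ ω)‖ ^ 2 := by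
      unfold avg
      simp only [smul_eq_mul]
      rw [integral_const_mul, integral_finset_sum _ fun ω _ =>
        (h.integrable_kern δ ω).mul_const _]
      congr 1
      refine Finset.sum_congr rfl fun ω _ => ?_
      rw [integral_mul_const, h.integral_kern, one_mul]
    rw [h5, ha, ← avg_const_mul]
    refine avg_mono fun ω => ?_
    calc ‖u (Φ ω)‖ ^ 2 ≤ (‖u‖ * ‖Φ ω‖) ^ 2 := by gcongr; exact u.le_opNorm _
      _ = _ := by ring
  have hJ2 : ∫ g : Fin n → ℝ, (∑ A ∈ S, ∑ B ∈ S, ff A δ g * ff B δ g *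
      b (coef Φ A) (coef Φ B)) ∂μ ≤ M4 ν * δ ^ 4 * (κ * a) := by
    rw [integral_finset_sum _ fun A _ => integrable_finset_sum _ fun B _ =>
      (h.integrable_ff_mul A B δ).mul_const _]
    have h6 : ∀ A ∈ S, ∫ g : Fin n → ℝ, (∑ B ∈ S, ff A δ g * ff B δ g *
        b (coef Φ A) (coef Φ B)) ∂μ ≤ M4 ν * δ ^ 4 * b (coef Φ A) (coef Φ A) := by
      intro A hA
      rw [integral_finset_sum _ fun B _ => (h.integrable_ff_mul A B δ).mul_const _]
      rw [Finset.sum_eq_single A]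
      · rw [integral_mul_const]
        have h7 : A.Nonempty := Finset.nonempty_iff_ne_empty.mpr (Finset.ne_of_mem_erase hA)
        have h8 := h.integral_ff_sq_le h7 hδ0.le hδ1
        have h9 : 0 ≤ b (coef Φ A) (coef Φ A) := le_trans (by positivity) (hb1 _)
        gcongr
      · intro B _ hBA
        rw [integral_mul_const, h.integral_ff_mul_of_ne (Ne.symm hBA), zero_mul]
      · intro hA'
        exact absurd hA hA'
    refine (Finset.sum_le_sum h6).trans ?_
    rw [← Finset.mul_sum]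
    have h10 : ∑ A ∈ S, b (coef Φ A) (coef Φ A) ≤ κ * a := by
      calc ∑ A ∈ S, b (coef Φ A) (coef Φ A) ≤ ∑ A, b (coef Φ A) (coef Φ A) :=
            Finset.sum_le_sum_of_subset_of_nonneg (Finset.erase_subset _ _) fun A _ _ =>
              le_trans (by positivity) (hb1 _)
        _ = avg fun ω => b (Φ ω) (Φ ω) := parseval b Φ
        _ ≤ avg fun ω => κ * ‖Φ ω‖ ^ 2 := avg_mono fun ω => hb2 _
        _ = κ * a := avg_const_mul _ _
    have h11 : 0 ≤ M4 ν := le_trans zero_le_one one_le_M4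
    gcongr
  have hGle : ∫ g, G g ∂μ ≤ 3 * (‖u‖ ^ 2 * a + ‖u‖ ^ 2 * a + M4 ν * δ ^ 4 * (κ * a)) := by
    have h12 := integral_add_const_add hI1 hI2 (‖u‖ ^ 2 * a)
    have h14 : ∫ g, G g ∂μ = 3 * (∫ g : Fin n → ℝ,
        (avg fun ω => kern (fun j => sc δ (g j)) ω * ‖u (Φ ω)‖ ^ 2) ∂μ + ‖u‖ ^ 2 * a +
        ∫ g : Fin n → ℝ, (∑ A ∈ S, ∑ B ∈ S, ff A δ g * ff B δ g *
          b (coef Φ A) (coef Φ B)) ∂μ) := by
      rw [← h12, ← integral_const_mul]
    rw [h14]
    gcongr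
  have hfin : δ ^ 2 * ∫ g : Fin n → ℝ, ‖∑ j, g j • u (coef Φ {j})‖ ^ 2 ∂μ ≤
      3 * (‖u‖ ^ 2 * a + ‖u‖ ^ 2 * a + M4 ν * δ ^ 4 * (κ * a)) := by
    rw [← integral_const_mul]
    refine le_trans ?_ hGle
    exact integral_mono_of_nonneg (Eventually.of_forall fun g => by positivity) hGint
      (Eventually.of_forall hpt)
  have hδ2 : 0 < δ ^ 2 := by positivity
  have h13 : ∫ g : Fin n → ℝ, ‖∑ j, g j • u (coef Φ {j})‖ ^ 2 ∂μ ≤
      3 * (‖u‖ ^ 2 * a + ‖u‖ ^ 2 * a + M4 ν * δ ^ 4 * (κ * a)) / δ ^ 2 := by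
    rw [le_div_iff₀ hδ2]
    linarith
  refine h13.trans (le_of_eq ?_)
  field_simp
  ring

/-- Cotype 2 with constant `C`. -/
def Cot (C : ℝ) (Y : Type*) [NormedAddCommGroup Y] [NormedSpace ℝ Y] : Prop :=
  ∀ (n : ℕ) (x : Fin n → Y), ∑ i, ‖x i‖ ^ 2 ≤ C * avg fun ω : Cube n => ‖∑ i, sg (ω i) • x i‖ ^ 2

theorem Good.integrable_norm_sq (h : Good ν) {m : ℕ} (z : Fin m → Y) :
    Integrable (fun g : Fin m → ℝ => ‖∑ i, g i • z i‖ ^ 2) (Measure.pi fun _ : Fin m => ν) := by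
  classical
  have h1 : ∀ i : Fin m, Integrable (fun g : Fin m → ℝ => g i ^ 2)
      (Measure.pi fun _ : Fin m => ν) := by
    intro i
    have h2 := Integrable.fintype_prod (μ := fun _ : Fin m => ν)
      (f := fun (j : Fin m) x => if j = i then x ^ 2 else 1) (fun j => by
        by_cases hj : j = i
        · simp only [hj, if_true]; exact h.integrable_two
        · simp only [hj, if_false]; exact integrable_const 1)
    simpa using h2
  refine Integrable.mono' (g := fun g : Fin m → ℝ => (m : ℝ) * ∑ i, g i ^ 2 * ‖z i‖ ^ 2) ?_ ?_ ?_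
  · exact (integrable_finset_sum _ fun i _ => (h1 i).mul_const _).const_mul _
  · have hc : Continuous fun g : Fin m → ℝ => ‖∑ i, g i • z i‖ ^ 2 := by fun_prop
    exact hc.aestronglyMeasurable
  · refine Eventually.of_forall fun g => ?_
    rw [Real.norm_eq_abs, abs_of_nonneg (by positivity)]
    have h3 : ‖∑ i, g i • z i‖ ≤ ∑ i, |g i| * ‖z i‖ := by
      refine (norm_sum_le _ _).trans (Finset.sum_le_sum fun i _ => ?_)
      rw [norm_smul, Real.norm_eq_abs]
    calc ‖∑ i, g i • z i‖ ^ 2 ≤ (∑ i, |g i| * ‖z i‖) ^ 2 := by gcongr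
      _ ≤ (Finset.univ : Finset (Fin m)).card * ∑ i, (|g i| * ‖z i‖) ^ 2 :=
        sq_sum_le_card_mul_sum_sq
      _ = (m : ℝ) * ∑ i, g i ^ 2 * ‖z i‖ ^ 2 := by
        simp only [Finset.card_univ, Fintype.card_fin, mul_pow, sq_abs]

theorem Good.integral_coord_sq (h : Good ν) {m : ℕ} (i : Fin m) :
    Integrable (fun g : Fin m → ℝ => g i ^ 2) (Measure.pi fun _ : Fin m => ν) ∧
    ∫ g : Fin m → ℝ, g i ^ 2 ∂(Measure.pi fun _ : Fin m => ν) = 1 := by
  classical
  constructor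
  · have h2 := Integrable.fintype_prod (μ := fun _ : Fin m => ν)
      (f := fun (j : Fin m) x => if j = i then x ^ 2 else 1) (fun j => by
        by_cases hj : j = i
        · simp only [hj, if_true]; exact h.integrable_two
        · simp only [hj, if_false]; exact integrable_const 1)
    simpa using h2
  · have h2 := integral_fintype_prod_eq_prod (μ := fun _ : Fin m => ν)
      (fun (j : Fin m) (x : ℝ) => if j = i then x ^ 2 else 1)
    have h3 : ∀ j : Fin m, ∫ x, (if j = i then x ^ 2 else 1) ∂ν = 1 := by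
      intro j
      by_cases hj : j = i
      · simp only [hj, if_true]; exact h.two
      · simp [hj]
    simp only [h3, Finset.prod_const_one] at h2
    rw [← h2]
    congr 1
    funext g
    simp

/-- The cotype inequality for the symmetric variables. -/
theorem cotype_gauss (h : Good ν) {C : ℝ} (hC : Cot C Y) {m : ℕ} (z : Fin m → Y) :
    ∑ i, ‖z i‖ ^ 2 ≤ C * ∫ g : Fin m → ℝ, ‖∑ i, g i • z i‖ ^ 2 ∂(Measure.pi fun _ : Fin m => ν) := by
  classical
  set μ := Measure.pi fun _ : Fin m => ν with hμ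
  have hsign : ∀ ω : Cube m, MeasurePreserving
      (fun (g : Fin m → ℝ) (i : Fin m) => sg (ω i) * g i) μ μ := by
    intro ω
    refine measurePreserving_pi (fun _ => ν) (fun _ => ν) (f := fun i x => sg (ω i) * x) ?_
    intro i
    rcases Int.units_eq_one_or (ω i) with h1 | h1
    · simp only [h1, sg_one, one_mul]
      exact MeasurePreserving.id ν
    · simp only [h1, sg_neg_one, neg_mul, one_mul]
      exact h.symm
  have hint : ∀ ω : Cube m, Integrable (fun g : Fin m → ℝ => ‖∑ i, sg (ω i) • g i • z i‖ ^ 2) μ := by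
    intro ω
    have h1 := (hsign ω).integrable_comp_of_integrable (h.integrable_norm_sq z)
    refine h1.congr (Eventually.of_forall fun g => ?_)
    simp only [Function.comp_apply, mul_smul]
  have heq : ∀ ω : Cube m, ∫ g : Fin m → ℝ, ‖∑ i, sg (ω i) • g i • z i‖ ^ 2 ∂μ =
      ∫ g : Fin m → ℝ, ‖∑ i, g i • z i‖ ^ 2 ∂μ := by
    intro ω
    have h1 := integral_map (hsign ω).measurable.aemeasurable
      (f := fun g : Fin m → ℝ => ‖∑ i, g i • z i‖ ^ 2)
      (by rw [(hsign ω).map_eq]; exact (h.integrable_norm_sq z).1)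
    rw [(hsign ω).map_eq] at h1
    rw [h1]
    simp only [mul_smul]
  have h2 : ∫ g : Fin m → ℝ, ‖∑ i, g i • z i‖ ^ 2 ∂μ =
      ∫ g : Fin m → ℝ, (avg fun ω : Cube m => ‖∑ i, sg (ω i) • g i • z i‖ ^ 2) ∂μ := by
    unfold avg
    simp only [smul_eq_mul]
    rw [integral_const_mul, integral_finset_sum _ fun ω _ => hint ω]
    simp only [heq]
    rw [Finset.sum_const, Finset.card_univ, card_cube, nsmul_eq_mul, ← mul_assoc]
    push_cast
    rw [inv_mul_cancel₀ (by positivity), one_mul]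
  have h3 : ∑ i, ‖z i‖ ^ 2 = ∫ g : Fin m → ℝ, (∑ i, ‖g i • z i‖ ^ 2) ∂μ := by
    have h4 : ∀ g : Fin m → ℝ, ∑ i, ‖g i • z i‖ ^ 2 = ∑ i, g i ^ 2 * ‖z i‖ ^ 2 := by
      intro g
      refine Finset.sum_congr rfl fun i _ => ?_
      rw [norm_smul, mul_pow, Real.norm_eq_abs, sq_abs]
    simp only [h4]
    rw [integral_finset_sum _ fun i _ => (h.integral_coord_sq i).1.mul_const _]
    refine Finset.sum_congr rfl fun i _ => ?_
    rw [integral_mul_const, (h.integral_coord_sq i).2, one_mul]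
  rw [h2, h3, ← integral_const_mul]
  refine integral_mono_of_nonneg (Eventually.of_forall fun g => by positivity) ?_
    (Eventually.of_forall fun g => hC m fun i => g i • z i)
  refine Integrable.const_mul ?_ C
  unfold avg
  simp only [smul_eq_mul]
  exact (integrable_finset_sum _ fun ω _ => hint ω).const_mul _

end Pool.Agent.H17.Pisier
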