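import Pool.Agent.H17.Pisier.Bound

/-!
# Gaussian sums with the same covariance have the same law
-/

set_option autoImplicit false
set_option maxSynthPendingDepth 3
set_option linter.style.haveILetI false
set_option linter.unusedVariables false
set_option linter.deprecated false
set_option linter.unusedSectionVars false

open scoped ENNReal
open MeasureTheory Filter Topology ProbabilityTheory

namespace Pool.Agent.H17.Pisier

/-- The standard normal law. -/
noncomputable abbrev gn : Measure ℝ := gaussianReal 0 1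

theorem good_gn : Good gn where
  symm := by
    refine ⟨measurable_neg, ?_⟩
    have := gaussianReal_map_neg (μ := 0) (v := 1)
    simpa using this
  two := by
    have h1 := variance_fun_id_gaussianReal (μ := 0) (v := 1)
    rw [variance_eq_integral (by fun_prop)] at h1
    simpa using h1
  four := by
    have h1 := (memLp_id_gaussianReal (μ := 0) (v := 1) 4).integrable_norm_pow (p := 4) (by norm_num)
    refine h1.congr (Eventually.of_forall fun x => ?_)
    simp only [id]
    rw [Real.norm_eq_abs]
    exact Even.pow_abs (by decide) x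

section

variable {Z : Type*} [NormedAddCommGroup Z] [NormedSpace ℝ Z] [MeasurableSpace Z] [BorelSpace Z]
  [SecondCountableTopology Z]

theorem charFunDual_sum {m : ℕ} (z : Fin m → Z) (L : StrongDual ℝ Z) :
    charFunDual ((Measure.pi fun _ : Fin m => gn).map fun g => ∑ i, g i • z i) L =
      Complex.exp (-((∑ i, (L (z i)) ^ 2 : ℝ) : ℂ) / 2) := by
  have hmeas : Measurable fun g : Fin m → ℝ => ∑ i, g i • z i := by
    have hc : Continuous fun g : Fin m → ℝ => ∑ i, g i • z i := by fun_prop
    exact hc.measurable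
  rw [charFunDual_apply, integral_map hmeas.aemeasurable
    (Measurable.aestronglyMeasurable (by fun_prop))]
  have h1 : ∀ g : Fin m → ℝ, Complex.exp ((L (∑ i, g i • z i) : ℝ) * Complex.I) =
      ∏ i, Complex.exp ((L (z i) : ℝ) * (g i : ℝ) * Complex.I) := by
    intro g
    rw [← Complex.exp_sum]
    congr 1
    rw [map_sum]
    push_cast
    rw [Finset.sum_mul]
    refine Finset.sum_congr rfl fun i _ => ?_
    rw [map_smul, smul_eq_mul]
    push_cast
    ring
  simp only [h1]
  rw [integral_fintype_prod_eq_prod (𝕜 := ℂ)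
    (fun (i : Fin m) (x : ℝ) => Complex.exp ((L (z i) : ℝ) * (x : ℝ) * Complex.I))]
  have h2 : ∀ i : Fin m, ∫ x : ℝ, Complex.exp ((L (z i) : ℝ) * (x : ℝ) * Complex.I) ∂gn =
      Complex.exp (-((L (z i)) ^ 2 : ℝ) / 2) := by
    intro i
    rw [← charFun_apply_real, charFun_gaussianReal]
    congr 1
    push_cast
    ring
  simp only [h2]
  rw [← Complex.exp_sum]
  congr 1
  push_cast
  rw [← Finset.sum_div, ← Finset.sum_neg_distrib]

theorem map_eq_of_covariance [CompleteSpace Z] {m n : ℕ} (z : Fin m → Z) (w : Fin n → Z)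
    (h : ∀ L : StrongDual ℝ Z, ∑ i, (L (z i)) ^ 2 = ∑ j, (L (w j)) ^ 2) :
    (Measure.pi fun _ : Fin m => gn).map (fun g => ∑ i, g i • z i) =
      (Measure.pi fun _ : Fin n => gn).map (fun g => ∑ i, g i • w i) := by
  haveI : IsProbabilityMeasure ((Measure.pi fun _ : Fin m => gn).map
      (fun g => ∑ i, g i • z i)) :=
    Measure.isProbabilityMeasure_map (Measurable.aemeasurable
      ((by fun_prop : Continuous fun g : Fin m → ℝ => ∑ i, g i • z i).measurable))
  haveI : IsProbabilityMeasure ((Measure.pi fun _ : Fin n => gn).map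
      (fun g => ∑ i, g i • w i)) :=
    Measure.isProbabilityMeasure_map (Measurable.aemeasurable
      ((by fun_prop : Continuous fun g : Fin n → ℝ => ∑ i, g i • w i).measurable))
  refine Measure.ext_of_charFunDual ?_
  funext L
  rw [charFunDual_sum, charFunDual_sum, h L]

end

variable {Y : Type*} [NormedAddCommGroup Y] [NormedSpace ℝ Y]

theorem integral_norm_sq_eq {m n : ℕ} (z : Fin m → Y) (w : Fin n → Y)
    (h : ∀ L : StrongDual ℝ Y, ∑ i, (L (z i)) ^ 2 = ∑ j, (L (w j)) ^ 2) :
    ∫ g : Fin m → ℝ, ‖∑ i, g i • z i‖ ^ 2 ∂(Measure.pi fun _ : Fin m => gn) =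
      ∫ g : Fin n → ℝ, ‖∑ i, g i • w i‖ ^ 2 ∂(Measure.pi fun _ : Fin n => gn) := by
  set Z : Submodule ℝ Y := Submodule.span ℝ (Set.range z ∪ Set.range w) with hZ
  haveI : FiniteDimensional ℝ Z :=
    FiniteDimensional.span_of_finite ℝ ((Set.finite_range z).union (Set.finite_range w))
  haveI : CompleteSpace Z := FiniteDimensional.complete ℝ Z
  haveI : ProperSpace Z := FiniteDimensional.proper ℝ Z
  letI : MeasurableSpace Z := borel Z
  haveI : BorelSpace Z := ⟨rfl⟩
  haveI : SecondCountableTopology Z := inferInstance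
  set z' : Fin m → Z := fun i => ⟨z i, Submodule.subset_span (Or.inl ⟨i, rfl⟩)⟩ with hz'
  set w' : Fin n → Z := fun i => ⟨w i, Submodule.subset_span (Or.inr ⟨i, rfl⟩)⟩ with hw'
  have h' : ∀ L : StrongDual ℝ Z, ∑ i, (L (z' i)) ^ 2 = ∑ j, (L (w' j)) ^ 2 := by
    intro L
    obtain ⟨L', hL', -⟩ := exists_extension_norm_eq Z L
    have h1 : ∀ i, L (z' i) = L' (z i) := fun i => (hL' (z' i)).symm
    have h2 : ∀ i, L (w' i) = L' (w i) := fun i => (hL' (w' i)).symm
    simp only [h1, h2]
    exact h L'
  have key := map_eq_of_covariance z' w' h'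
  have hm : Continuous fun g : Fin m → ℝ => ∑ i, g i • z' i := by fun_prop
  have hn : Continuous fun g : Fin n → ℝ => ∑ i, g i • w' i := by fun_prop
  have hf : Continuous fun v : Z => ‖(v : Y)‖ ^ 2 := by fun_prop
  have e1 := integral_map (μ := Measure.pi fun _ : Fin m => gn) hm.measurable.aemeasurable
    (f := fun v : Z => ‖(v : Y)‖ ^ 2) hf.aestronglyMeasurable
  have e2 := integral_map (μ := Measure.pi fun _ : Fin n => gn) hn.measurable.aemeasurable
    (f := fun v : Z => ‖(v : Y)‖ ^ 2) hf.aestronglyMeasurable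
  rw [key] at e1
  have e3 := e1.symm.trans e2
  simpa [z', w'] using e3

end Pool.Agent.H17.Pisier
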