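import Pool.Agent.H17.Pisier.GaussLaw

/-!
# Pisier's factorization theorem: cotype 2 on both sides
-/

set_option autoImplicit false
set_option maxSynthPendingDepth 3
set_option linter.style.haveILetI false
set_option linter.unusedVariables false
set_option linter.deprecated false
set_option linter.unusedSectionVars false

open scoped ENNReal
open MeasureTheory Filter Topology ProbabilityTheory

namespace Pool.Agent.H17.Pisier

variable {X Y : Type*} [NormedAddCommGroup X] [NormedSpace ℝ X]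
  [NormedAddCommGroup Y] [NormedSpace ℝ Y]

theorem walsh_singleton {n : ℕ} (j : Fin n) (ω : Cube n) : walsh {j} ω = sg (ω j) := by
  unfold walsh
  simp

theorem sum_apply_coef {n : ℕ} (f : Fin n → StrongDual ℝ X) (Φ : Cube n → X) :
    ∑ j, f j (coef Φ {j}) = avg fun ω => (∑ j, sg (ω j) • f j) (Φ ω) := by
  unfold coef avg
  simp only [walsh_singleton, map_smul, map_sum, smul_eq_mul]
  rw [← Finset.mul_sum, Finset.sum_comm]
  congr 1
  refine Finset.sum_congr rfl fun ω _ => ?_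
  simp

theorem exists_near_norming (F : StrongDual ℝ X) {θ : ℝ} (hθ0 : 0 ≤ θ) (hθ : θ < 1) :
    ∃ v : X, ‖v‖ ≤ 1 ∧ θ * ‖F‖ ≤ F v := by
  by_cases hF : F = 0
  · exact ⟨0, by simp, by simp [hF]⟩
  · have h1 : θ * ‖F‖ < ‖F‖ := by
      have : 0 < ‖F‖ := norm_pos_iff.mpr hF
      nlinarith
    obtain ⟨v, hv1, hv2⟩ := F.exists_lt_apply_of_lt_opNorm h1
    rw [Real.norm_eq_abs] at hv2
    rcases le_total 0 (F v) with h2 | h2
    · rw [abs_of_nonneg h2] at hv2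
      exact ⟨v, hv1.le, hv2.le⟩
    · rw [abs_of_nonpos h2] at hv2
      exact ⟨-v, by rw [norm_neg]; exact hv1.le, by rw [map_neg]; exact hv2.le⟩

/-- The dual form of cotype 2 of the dual space. -/
theorem dual_cotype {C : ℝ} (hC : Cot C (StrongDual ℝ X)) {n : ℕ} (x : Fin n → X) {ρ : ℝ}
    (hρ0 : 0 ≤ ρ) (hρ : C * ∑ j, ‖x j‖ ^ 2 ≤ ρ) {η : ℝ} (hη : 0 < η) :
    ∃ Φ : Cube n → X, (avg fun ω => ‖Φ ω‖ ^ 2) ≤ ρ ∧ ∀ j, ‖x j - coef Φ {j}‖ < η := by
  classical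
  set S : Set (Fin n → X) := {v | ∃ Φ : Cube n → X, (avg fun ω => ‖Φ ω‖ ^ 2) ≤ ρ ∧
    v = fun j => coef Φ {j}} with hS
  suffices h : x ∈ closure S by
    obtain ⟨v, ⟨Φ, hΦ, rfl⟩, hv⟩ := Metric.mem_closure_iff.mp h η hη
    refine ⟨Φ, hΦ, fun j => ?_⟩
    have := (dist_pi_lt_iff hη).mp hv j
    rwa [dist_eq_norm] at this
  have hconv : Convex ℝ S := by
    rintro v ⟨Φ, hΦ, rfl⟩ w ⟨Ψ, hΨ, rfl⟩ s t hs ht hst
    refine ⟨fun ω => s • Φ ω + t • Ψ ω, ?_, ?_⟩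
    · calc (avg fun ω => ‖s • Φ ω + t • Ψ ω‖ ^ 2)
          ≤ avg fun ω => (s * ‖Φ ω‖ ^ 2 + t * ‖Ψ ω‖ ^ 2) := by
            refine avg_mono fun ω => ?_
            have h1 : ‖s • Φ ω + t • Ψ ω‖ ≤ s * ‖Φ ω‖ + t * ‖Ψ ω‖ := by
              refine (norm_add_le _ _).trans ?_
              rw [norm_smul, norm_smul, Real.norm_eq_abs, Real.norm_eq_abs, abs_of_nonneg hs,
                abs_of_nonneg ht]
            have h2 : ‖s • Φ ω + t • Ψ ω‖ ^ 2 ≤ (s * ‖Φ ω‖ + t * ‖Ψ ω‖) ^ 2 := by gcongr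
            have h3 : s = 1 - t := by linarith
            subst h3
            nlinarith [mul_nonneg hs ht, sq_nonneg (‖Φ ω‖ - ‖Ψ ω‖),
              mul_nonneg (mul_nonneg hs ht) (sq_nonneg (‖Φ ω‖ - ‖Ψ ω‖))]
        _ = s * (avg fun ω => ‖Φ ω‖ ^ 2) + t * (avg fun ω => ‖Ψ ω‖ ^ 2) := by
            rw [← avg_const_mul, ← avg_const_mul]
            unfold avg
            rw [Finset.sum_add_distrib, smul_add]
        _ ≤ s * ρ + t * ρ := by gcongr
        _ = ρ := by rw [← add_mul, hst, one_mul]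
    · funext j
      simp only [Pi.add_apply, Pi.smul_apply]
      unfold coef avg
      simp only [smul_add, Finset.sum_add_distrib, Finset.smul_sum]
      congr 1
      · refine Finset.sum_congr rfl fun ω _ => ?_
        simp only [smul_smul]
        congr 1
        ring
      · refine Finset.sum_congr rfl fun ω _ => ?_
        simp only [smul_smul]
        congr 1
        ring
  by_contra hx
  obtain ⟨f, a, hf1, hf2⟩ := geometric_hahn_banach_closed_point hconv.closure isClosed_closure hx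
  set fj : Fin n → StrongDual ℝ X := fun j => f ∘L ContinuousLinearMap.single ℝ (fun _ => X) j
    with hfj
  have hdec : ∀ w : Fin n → X, f w = ∑ j, fj j (w j) := by
    intro w
    conv_lhs => rw [← Finset.univ_sum_single w]
    rw [map_sum]
    rfl
  rw [hdec] at hf2
  set F : Cube n → StrongDual ℝ X := fun ω => ∑ j, sg (ω j) • fj j with hF
  have hf1' : ∀ Φ : Cube n → X, (avg fun ω => ‖Φ ω‖ ^ 2) ≤ ρ → (avg fun ω => F ω (Φ ω)) < a := by
    intro Φ hΦ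
    have := hf1 _ (subset_closure ⟨Φ, hΦ, rfl⟩)
    rw [hdec, sum_apply_coef] at this
    exact this
  set m2 : ℝ := avg fun ω => ‖F ω‖ ^ 2 with hm2
  have hm20 : 0 ≤ m2 := avg_nonneg fun ω => by positivity
  have hcot : ∑ j, ‖fj j‖ ^ 2 ≤ C * m2 := hC n fj
  have hle : ∑ j, fj j (x j) ≤ √(ρ * m2) := by
    refine Real.le_sqrt_of_sq_le ?_
    calc (∑ j, fj j (x j)) ^ 2 ≤ (∑ j, ‖fj j‖ * ‖x j‖) ^ 2 := by
          rw [sq_le_sq, abs_of_nonneg (a := ∑ j, ‖fj j‖ * ‖x j‖) (Finset.sum_nonneg fun j _ =>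
            by positivity)]
          refine (Finset.abs_sum_le_sum_abs _ _).trans (Finset.sum_le_sum fun j _ => ?_)
          exact (fj j).le_opNorm _
      _ ≤ (∑ j, ‖fj j‖ ^ 2) * ∑ j, ‖x j‖ ^ 2 := Finset.sum_mul_sq_le_sq_mul_sq _ _ _
      _ ≤ (C * m2) * ∑ j, ‖x j‖ ^ 2 := by gcongr
      _ = (C * ∑ j, ‖x j‖ ^ 2) * m2 := by ring
      _ ≤ ρ * m2 := by gcongr
  have hlow : ∀ θ : ℝ, 0 ≤ θ → θ < 1 → θ * √(ρ * m2) ≤ a := by
    intro θ hθ0 hθ1
    by_cases hm0 : m2 = 0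
    · rw [hm0, mul_zero, Real.sqrt_zero, mul_zero]
      have h0 := hf1' (fun _ => 0) (by
        have : (avg fun _ : Cube n => ‖(0 : X)‖ ^ 2) = 0 := by
          simp [avg]
        rw [this]; exact hρ0)
      have h1 : (avg fun ω => F ω (0 : X)) = 0 := by simp [avg]
      rw [h1] at h0
      exact h0.le
    · have hm2pos : 0 < m2 := lt_of_le_of_ne hm20 (Ne.symm hm0)
      choose v hv1 hv2 using fun ω => exists_near_norming (F ω) hθ0 hθ1
      set t : ℝ := √(ρ / m2) with ht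
      have ht0 : 0 ≤ t := Real.sqrt_nonneg _
      have ht2 : t ^ 2 = ρ / m2 := Real.sq_sqrt (by positivity)
      have h2 := hf1' (fun ω => (t * ‖F ω‖) • v ω) (by
        calc (avg fun ω => ‖(t * ‖F ω‖) • v ω‖ ^ 2) ≤ avg fun ω => t ^ 2 * ‖F ω‖ ^ 2 := by
              refine avg_mono fun ω => ?_
              rw [norm_smul, mul_pow, Real.norm_eq_abs, sq_abs]
              have h3 : ‖v ω‖ ^ 2 ≤ 1 := by
                have := hv1 ω
                nlinarith [norm_nonneg (v ω)]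
              calc (t * ‖F ω‖) ^ 2 * ‖v ω‖ ^ 2 ≤ (t * ‖F ω‖) ^ 2 * 1 := by gcongr
                _ = _ := by ring
          _ = t ^ 2 * m2 := avg_const_mul _ _
          _ = ρ := by rw [ht2]; field_simp
          _ ≤ ρ := le_rfl)
      refine le_trans ?_ h2.le
      calc θ * √(ρ * m2) = (t * θ) * m2 := by
            have h4 : √(ρ * m2) = t * m2 := by
              rw [ht, ← Real.sqrt_sq hm20, ← Real.sqrt_mul (by positivity)]
              congr 1
              rw [Real.sqrt_sq hm20]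
              field_simp
            rw [h4]
            ring
        _ = avg fun ω => (t * θ) * ‖F ω‖ ^ 2 := (avg_const_mul _ _).symm
        _ ≤ avg fun ω => F ω ((t * ‖F ω‖) • v ω) := by
            refine avg_mono fun ω => ?_
            rw [map_smul, smul_eq_mul]
            have h5 := hv2 ω
            calc t * θ * ‖F ω‖ ^ 2 = (t * ‖F ω‖) * (θ * ‖F ω‖) := by ring
              _ ≤ (t * ‖F ω‖) * F ω (v ω) := by gcongr
  have hlow' : √(ρ * m2) ≤ a := by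
    by_contra hcon
    push Not at hcon
    have ha0 : 0 ≤ a := by
      have := hlow 0 le_rfl one_pos
      simpa using this
    have hpos : 0 < √(ρ * m2) := lt_of_le_of_lt ha0 hcon
    set θ : ℝ := (a / √(ρ * m2) + 1) / 2 with hθ
    have h6 : a / √(ρ * m2) < 1 := (div_lt_one hpos).mpr hcon
    have h7 : 0 ≤ a / √(ρ * m2) := by positivity
    have h8 := hlow θ (by rw [hθ]; linarith) (by rw [hθ]; linarith)
    have h9 : a = (a / √(ρ * m2)) * √(ρ * m2) := by field_simp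
    have h10 : (a / √(ρ * m2)) < θ := by rw [hθ]; linarith
    nlinarith
  linarith

/-- The constant in Pisier's theorem. -/
noncomputable def pisierConst (C₁ C₂ : ℝ) : ℝ := 288 * (|C₁| * |C₂| + 1) ^ 2 * M4 gn

theorem list_sum_eq {V : Type*} {α : Type*} [AddCommMonoid V] (l : List α) (f : α → V) :
    (l.map f).sum = ∑ i : Fin l.length, f (l.get i) := by
  rw [← List.sum_ofFn]
  congr 1
  have := List.ofFn_get l
  conv_lhs => rw [← this]
  rw [List.map_ofFn]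
  rfl

theorem cot_abs {C : ℝ} (hC : Cot C Y) : Cot |C| Y := by
  intro n x
  refine (hC n x).trans ?_
  have : 0 ≤ avg fun ω : Cube n => ‖∑ i, sg (ω i) • x i‖ ^ 2 := avg_nonneg fun ω => by positivity
  gcongr
  exact le_abs_self C

/-- The Gaussian average of `u ξ` is controlled. -/
theorem gauss_bound {C : ℝ} (h1' : Cot C (StrongDual ℝ X)) (hC0 : 0 ≤ C) {u : X →L[ℝ] Y}
    {κ δ : ℝ} (b : X →ₗ[ℝ] X →ₗ[ℝ] ℝ) (hb1 : ∀ x, ‖u x‖ ^ 2 ≤ b x x)
    (hb2 : ∀ x, b x x ≤ κ * ‖x‖ ^ 2) (hδpos : 0 < δ) (hδ1 : δ ≤ 1) (hκ0 : 0 ≤ κ)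
    {n : ℕ} (ξ : Fin n → X) :
    ∫ g : Fin n → ℝ, ‖∑ j, g j • u (ξ j)‖ ^ 2 ∂(Measure.pi fun _ : Fin n => gn) ≤
      2 * ((6 * ‖u‖ ^ 2 / δ ^ 2 + 3 * M4 gn * δ ^ 2 * κ) * (C * ∑ j, ‖ξ j‖ ^ 2)) := by
  set s : ℝ := ∑ j, ‖ξ j‖ ^ 2 with hs
  have hs0 : 0 ≤ s := Finset.sum_nonneg fun j _ => by positivity
  set M : ℝ := M4 gn with hM
  have hM1 : 1 ≤ M := one_le_M4
  set Q : ℝ := 6 * ‖u‖ ^ 2 / δ ^ 2 + 3 * M * δ ^ 2 * κ with hQ
  have hQ0 : 0 ≤ Q := by positivity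
  refine le_of_forall_pos_le_add fun ε hε => ?_
  -- choose η
  obtain ⟨η, hη, hη'⟩ : ∃ η : ℝ, 0 < η ∧ 2 * ((n : ℝ) * ((n : ℝ) * (‖u‖ * η) ^ 2)) ≤ ε := by
    have hcont : Tendsto (fun η : ℝ => 2 * ((n : ℝ) * ((n : ℝ) * (‖u‖ * η) ^ 2)))
        (𝓝[>] 0) (𝓝 (2 * ((n : ℝ) * ((n : ℝ) * (‖u‖ * 0) ^ 2)))) := by
      refine tendsto_nhdsWithin_of_tendsto_nhds ?_
      exact Continuous.tendsto (by fun_prop) 0
    have h5 : 2 * ((n : ℝ) * ((n : ℝ) * (‖u‖ * 0) ^ 2)) < ε := by simpa using hε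
    have h6 := (hcont.eventually (gt_mem_nhds h5)).and self_mem_nhdsWithin
    obtain ⟨η, h7, h8⟩ := h6.exists
    exact ⟨η, h8, h7.le⟩
  obtain ⟨Φ, hΦ1, hΦ2⟩ := dual_cotype h1' ξ (ρ := C * s) (by positivity) le_rfl hη
  have hrb := riesz_bound good_gn b hb1 hb2 hδpos hδ1 Φ
  have hrb' : ∫ g : Fin n → ℝ, ‖∑ j, g j • u (coef Φ {j})‖ ^ 2
      ∂(Measure.pi fun _ : Fin n => gn) ≤ Q * (C * s) := hrb.trans (by gcongr)
  have hpt : ∀ g : Fin n → ℝ, ‖∑ j, g j • u (ξ j)‖ ^ 2 ≤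
      2 * ‖∑ j, g j • u (coef Φ {j})‖ ^ 2 + 2 * ((n : ℝ) * ∑ j, g j ^ 2 * (‖u‖ * η) ^ 2) := by
    intro g
    have e1 : ∑ j, g j • u (ξ j) = ∑ j, g j • u (coef Φ {j}) +
        ∑ j, g j • u (ξ j - coef Φ {j}) := by
      rw [← Finset.sum_add_distrib]
      refine Finset.sum_congr rfl fun j _ => ?_
      rw [map_sub, smul_sub]
      abel
    have e2 : ‖∑ j, g j • u (ξ j - coef Φ {j})‖ ^ 2 ≤ (n : ℝ) * ∑ j, g j ^ 2 * (‖u‖ * η) ^ 2 := by
      have e3 : ‖∑ j, g j • u (ξ j - coef Φ {j})‖ ≤ ∑ j, |g j| * (‖u‖ * η) := by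
        refine (norm_sum_le _ _).trans (Finset.sum_le_sum fun j _ => ?_)
        rw [norm_smul, Real.norm_eq_abs]
        gcongr
        refine (u.le_opNorm _).trans ?_
        gcongr
        exact (hΦ2 j).le
      calc ‖∑ j, g j • u (ξ j - coef Φ {j})‖ ^ 2 ≤ (∑ j, |g j| * (‖u‖ * η)) ^ 2 := by gcongr
        _ ≤ (Finset.univ : Finset (Fin n)).card * ∑ j, (|g j| * (‖u‖ * η)) ^ 2 :=
          sq_sum_le_card_mul_sum_sq
        _ = (n : ℝ) * ∑ j, g j ^ 2 * (‖u‖ * η) ^ 2 := by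
          rw [Finset.card_univ, Fintype.card_fin]
          congr 1
          refine Finset.sum_congr rfl fun j _ => ?_
          rw [mul_pow, sq_abs]
    rw [e1]
    have e4 : ‖∑ j, g j • u (coef Φ {j}) + ∑ j, g j • u (ξ j - coef Φ {j})‖ ^ 2 ≤
        (‖∑ j, g j • u (coef Φ {j})‖ + ‖∑ j, g j • u (ξ j - coef Φ {j})‖) ^ 2 := by
      gcongr
      exact norm_add_le _ _
    nlinarith [sq_nonneg (‖∑ j, g j • u (coef Φ {j})‖ - ‖∑ j, g j • u (ξ j - coef Φ {j})‖)]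
  have hint1 := good_gn.integrable_norm_sq (m := n) fun j => u (coef Φ {j})
  have hint2 : Integrable (fun g : Fin n → ℝ => (n : ℝ) * ∑ j, g j ^ 2 * (‖u‖ * η) ^ 2)
      (Measure.pi fun _ : Fin n => gn) :=
    (integrable_finset_sum _ fun j _ => (good_gn.integral_coord_sq j).1.mul_const _).const_mul _
  have hval : ∫ g : Fin n → ℝ, (n : ℝ) * ∑ j, g j ^ 2 * (‖u‖ * η) ^ 2
      ∂(Measure.pi fun _ : Fin n => gn) = (n : ℝ) * ((n : ℝ) * (‖u‖ * η) ^ 2) := by
    rw [integral_const_mul, integral_finset_sum _ fun j _ =>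
      (good_gn.integral_coord_sq j).1.mul_const _]
    congr 1
    simp only [integral_mul_const, (good_gn.integral_coord_sq _).2, one_mul]
    rw [Finset.sum_const, Finset.card_univ, Fintype.card_fin, nsmul_eq_mul]
  calc ∫ g : Fin n → ℝ, ‖∑ j, g j • u (ξ j)‖ ^ 2 ∂(Measure.pi fun _ : Fin n => gn)
      ≤ ∫ g : Fin n → ℝ, (2 * ‖∑ j, g j • u (coef Φ {j})‖ ^ 2 +
        2 * ((n : ℝ) * ∑ j, g j ^ 2 * (‖u‖ * η) ^ 2)) ∂(Measure.pi fun _ : Fin n => gn) := by
        refine integral_mono (good_gn.integrable_norm_sq _)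
          ((hint1.const_mul 2).add (hint2.const_mul 2)) hpt
    _ = 2 * ∫ g : Fin n → ℝ, ‖∑ j, g j • u (coef Φ {j})‖ ^ 2
          ∂(Measure.pi fun _ : Fin n => gn) + 2 * ((n : ℝ) * ((n : ℝ) * (‖u‖ * η) ^ 2)) := by
        rw [integral_add (hint1.const_mul 2) (hint2.const_mul 2), integral_const_mul,
          integral_const_mul, hval]
    _ ≤ 2 * (Q * (C * s)) + ε := by gcongr

/-- The a priori improvement. -/
theorem kw_step {C₁ C₂ : ℝ} (h1 : Cot C₁ (StrongDual ℝ X)) (h2 : Cot C₂ Y) {u : X →L[ℝ] Y}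
    {κ : ℝ} (hκ0 : 0 ≤ κ) (hu : Kw u κ) : Kw u (pisierConst C₁ C₂ / 2 * ‖u‖ ^ 2 + κ / 2) := by
  intro l l' hll
  obtain ⟨b, -, hb⟩ := exists_form hu
  set x : Fin l.length → X := l.get with hx
  set ξ : Fin l'.length → X := l'.get with hξ
  rw [list_sum_eq, list_sum_eq]
  rw [list_sum_eq, list_sum_eq] at hll
  set s : ℝ := ∑ j, ‖ξ j‖ ^ 2 with hs
  have hs0 : 0 ≤ s := Finset.sum_nonneg fun j _ => by positivity
  have h1' := cot_abs h1
  have h2' := cot_abs h2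
  -- law invariance
  have hlaw := integral_norm_sq_eq (fun i => u (x i)) (fun j => u (ξ j)) (by
    intro L
    have h3 := congrFun hll (L ∘L u)
    simp only [Finset.sum_apply, phi, ContinuousLinearMap.comp_apply] at h3
    simp only [pow_two]
    exact h3)
  have hc := cotype_gauss good_gn h2' fun i => u (x i)
  rw [hlaw] at hc
  set I : ℝ := ∫ g : Fin l'.length → ℝ, ‖∑ j, g j • u (ξ j)‖ ^ 2
    ∂(Measure.pi fun _ : Fin l'.length => gn) with hI
  set M : ℝ := M4 gn with hM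
  have hM1 : 1 ≤ M := one_le_M4
  set C : ℝ := |C₁| * |C₂| + 1 with hC
  have hC1 : 1 ≤ C := by
    have : 0 ≤ |C₁| * |C₂| := by positivity
    linarith
  have hCpos : 0 < C := by linarith
  have hMpos : 0 < M := by linarith
  -- choice of δ
  set δ : ℝ := √(1 / (12 * C * M)) with hδ
  have hδ2 : δ ^ 2 = 1 / (12 * C * M) := Real.sq_sqrt (by positivity)
  have hδpos : 0 < δ := Real.sqrt_pos.mpr (by positivity)
  have hδ1 : δ ≤ 1 := by
    have h4 : δ ^ 2 ≤ 1 := by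
      rw [hδ2, div_le_one (by positivity)]
      nlinarith
    nlinarith
  set Q : ℝ := 6 * ‖u‖ ^ 2 / δ ^ 2 + 3 * M * δ ^ 2 * κ with hQ
  have hQ0 : 0 ≤ Q := by positivity
  have hIle : I ≤ 2 * (Q * (|C₁| * s)) :=
    gauss_bound h1' (by positivity) b (fun x => (hb x).1) (fun x => (hb x).2) hδpos hδ1 hκ0 ξ
  calc ∑ i, ‖u (x i)‖ ^ 2 ≤ |C₂| * I := hc
    _ ≤ |C₂| * (2 * (Q * (|C₁| * s))) := by gcongr
    _ = 2 * (|C₁| * |C₂|) * Q * s := by ring
    _ ≤ 2 * C * Q * s := by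
      gcongr
      rw [hC]
      linarith
    _ = (pisierConst C₁ C₂ / 2 * ‖u‖ ^ 2 + κ / 2) * s := by
      rw [hQ, hδ2, pisierConst, ← hM, ← hC]
      field_simp
      ring

/-- **Pisier's factorization theorem.** -/
theorem pisier {C₁ C₂ : ℝ} (h1 : Cot C₁ (StrongDual ℝ X)) (h2 : Cot C₂ Y) {u : X →L[ℝ] Y}
    {κ : ℝ} (hκ0 : 0 ≤ κ) (hu : Kw u κ) : Kw u (pisierConst C₁ C₂ * ‖u‖ ^ 2) := by
  have hP : 0 ≤ pisierConst C₁ C₂ := by
    unfold pisierConst
    have := one_le_M4 (ν := gn)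
    positivity
  have h3 : ∀ n : ℕ, Kw u (pisierConst C₁ C₂ * ‖u‖ ^ 2 + κ / 2 ^ n) := by
    intro n
    induction n with
    | zero =>
      intro l l' hll
      have h4 := hu l l' hll
      have h5 : 0 ≤ (l'.map fun x => ‖x‖ ^ 2).sum := by
        rw [list_sum_eq]
        exact Finset.sum_nonneg fun j _ => by positivity
      refine h4.trans ?_
      gcongr
      simp
      positivity
    | succ n ih =>
      have h6 := kw_step h1 h2 (by positivity) ih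
      have h7 : pisierConst C₁ C₂ / 2 * ‖u‖ ^ 2 +
          (pisierConst C₁ C₂ * ‖u‖ ^ 2 + κ / 2 ^ n) / 2 =
          pisierConst C₁ C₂ * ‖u‖ ^ 2 + κ / 2 ^ (n + 1) := by
        rw [pow_succ]
        field_simp
        ring
      rwa [h7] at h6
  intro l l' hll
  have hlim : Tendsto (fun n : ℕ => (pisierConst C₁ C₂ * ‖u‖ ^ 2 + κ / 2 ^ n) *
      (l'.map fun x => ‖x‖ ^ 2).sum) atTop
      (𝓝 ((pisierConst C₁ C₂ * ‖u‖ ^ 2 + 0) * (l'.map fun x => ‖x‖ ^ 2).sum)) := by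
    refine Tendsto.mul_const _ (Tendsto.const_add _ ?_)
    have h8 : Tendsto (fun n : ℕ => κ * (1 / 2 : ℝ) ^ n) atTop (𝓝 (κ * 0)) :=
      (tendsto_pow_atTop_nhds_zero_of_lt_one (by norm_num) (by norm_num)).const_mul κ
    rw [mul_zero] at h8
    refine h8.congr fun n => ?_
    rw [one_div, inv_pow]
    rfl
  rw [add_zero] at hlim
  exact ge_of_tendsto' hlim fun n => h3 n l l' hll

/-- Kwapień's condition holds for operators of finite rank. -/
theorem kw_of_finiteRank {u : X →L[ℝ] Y} (hu : FiniteDimensional ℝ u.range) :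
    ∃ κ, 0 ≤ κ ∧ Kw u κ := by
  classical
  set B := Module.finBasis ℝ u.range with hB
  set d := Module.finrank ℝ u.range with hd
  have hcod : ∀ x, u x ∈ u.range := fun x => ⟨x, rfl⟩
  set u' : X →L[ℝ] u.range := u.codRestrict u.range hcod with hu'
  set f : Fin d → StrongDual ℝ X := fun k => (B.coord k).toContinuousLinearMap ∘L u' with hf
  have hrep : ∀ x, u x = ∑ k, f k x • (B k : Y) := by
    intro x
    have h1 : u' x = ∑ k, f k x • B k := (B.sum_repr (u' x)).symm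
    have h2 : u x = ((u' x : u.range) : Y) := rfl
    rw [h2, h1]
    simp
  set K₁ : ℝ := ∑ k, ‖(B k : Y)‖ ^ 2 with hK₁
  set K₂ : ℝ := ∑ k, ‖f k‖ ^ 2 with hK₂
  have hK₁0 : 0 ≤ K₁ := Finset.sum_nonneg fun k _ => by positivity
  have hK₂0 : 0 ≤ K₂ := Finset.sum_nonneg fun k _ => by positivity
  refine ⟨K₁ * K₂, by positivity, ?_⟩
  intro l l' hll
  rw [list_sum_eq, list_sum_eq]
  rw [list_sum_eq, list_sum_eq] at hll
  have h3 : ∀ x, ‖u x‖ ^ 2 ≤ K₁ * ∑ k, (f k x) ^ 2 := by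
    intro x
    have h4 : ‖u x‖ ≤ ∑ k, |f k x| * ‖(B k : Y)‖ := by
      rw [hrep x]
      refine (norm_sum_le _ _).trans (Finset.sum_le_sum fun k _ => ?_)
      rw [norm_smul, Real.norm_eq_abs]
    calc ‖u x‖ ^ 2 ≤ (∑ k, |f k x| * ‖(B k : Y)‖) ^ 2 := by gcongr
      _ ≤ (∑ k, |f k x| ^ 2) * ∑ k, ‖(B k : Y)‖ ^ 2 := Finset.sum_mul_sq_le_sq_mul_sq _ _ _
      _ = K₁ * ∑ k, (f k x) ^ 2 := by
        simp only [sq_abs]
        ring
  calc ∑ i, ‖u (l.get i)‖ ^ 2 ≤ ∑ i, K₁ * ∑ k, (f k (l.get i)) ^ 2 :=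
        Finset.sum_le_sum fun i _ => h3 _
    _ = K₁ * ∑ k, ∑ i, (f k (l.get i)) ^ 2 := by
        rw [← Finset.mul_sum, Finset.sum_comm]
    _ = K₁ * ∑ k, ∑ j, (f k (l'.get j)) ^ 2 := by
        congr 1
        refine Finset.sum_congr rfl fun k _ => ?_
        have h5 := congrFun hll (f k)
        simp only [Finset.sum_apply, phi] at h5
        simp only [pow_two]
        exact h5
    _ ≤ K₁ * ∑ k, ∑ j, ‖f k‖ ^ 2 * ‖l'.get j‖ ^ 2 := by
        gcongr with k _ j _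
        rw [← mul_pow, ← sq_abs]
        gcongr
        exact (f k).le_opNorm _
    _ = K₁ * K₂ * ∑ j, ‖l'.get j‖ ^ 2 := by
        simp only [← Finset.mul_sum]
        rw [← Finset.sum_mul]
        ring

end Pool.Agent.H17.Pisier
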