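import Mathlib

/-!
# Riesz products on the cube coupled with a symmetric random variable
-/

set_option autoImplicit false
set_option maxSynthPendingDepth 3
set_option linter.style.haveILetI false
set_option linter.unusedVariables false
set_option linter.deprecated false
set_option linter.unusedSectionVars false

open scoped ENNReal
open MeasureTheory Filter Topology

namespace Pool.Agent.H17.Pisier

/-- The real value of a sign. -/
def sg (s : ℤˣ) : ℝ := ((s : ℤ) : ℝ)

theorem sg_one : sg 1 = 1 := by simp [sg]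

theorem sg_neg_one : sg (-1) = -1 := by simp [sg]

theorem sg_mul_self (s : ℤˣ) : sg s * sg s = 1 := by
  rcases Int.units_eq_one_or s with h | h <;> simp [h, sg_one, sg_neg_one]

theorem sg_mul_of_ne {s t : ℤˣ} (h : s ≠ t) : sg s * sg t = -1 := by
  rcases Int.units_eq_one_or s with h1 | h1 <;> rcases Int.units_eq_one_or t with h2 | h2 <;>
    simp_all [sg_one, sg_neg_one]

theorem abs_sg (s : ℤˣ) : |sg s| = 1 := by
  rcases Int.units_eq_one_or s with h | h <;> simp [h, sg_one, sg_neg_one]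

theorem sum_units {V : Type*} [AddCommMonoid V] (f : ℤˣ → V) : ∑ s, f s = f 1 + f (-1) := by
  have : (Finset.univ : Finset ℤˣ) = {1, -1} := rfl
  rw [this, Finset.sum_pair (by decide)]

theorem sum_one_add_sg (c : ℝ) : ∑ s : ℤˣ, (1 + c * sg s) = 2 := by
  rw [sum_units, sg_one, sg_neg_one]
  ring

/-- The sign cube. -/
abbrev Cube (n : ℕ) : Type := Fin n → ℤˣ

/-- The average over the cube. -/
noncomputable def avg {n : ℕ} {V : Type*} [AddCommMonoid V] [Module ℝ V] (f : Cube n → V) : V :=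
  ((2 : ℝ) ^ n)⁻¹ • ∑ ω, f ω

/-- The Walsh functions. -/
noncomputable def walsh {n : ℕ} (A : Finset (Fin n)) (ω : Cube n) : ℝ := ∏ i ∈ A, sg (ω i)

theorem card_cube (n : ℕ) : Fintype.card (Cube n) = 2 ^ n := by
  simp

theorem avg_mono {n : ℕ} {f g : Cube n → ℝ} (h : ∀ ω, f ω ≤ g ω) : avg f ≤ avg g := by
  unfold avg
  simp only [smul_eq_mul]
  gcongr with ω
  exact h ω

theorem avg_nonneg {n : ℕ} {f : Cube n → ℝ} (h : ∀ ω, 0 ≤ f ω) : 0 ≤ avg f := by
  unfold avg
  have : 0 ≤ ∑ ω, f ω := Finset.sum_nonneg fun ω _ => h ω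
  positivity

theorem avg_const_mul {n : ℕ} (c : ℝ) (f : Cube n → ℝ) : avg (fun ω => c * f ω) = c * avg f := by
  unfold avg
  rw [← Finset.mul_sum]
  simp only [smul_eq_mul]
  ring

theorem avg_const {n : ℕ} (c : ℝ) : avg (fun _ : Cube n => c) = c := by
  unfold avg
  simp

theorem sum_walsh_mul {n : ℕ} (ω ω' : Cube n) :
    ∑ A, walsh A ω * walsh A ω' = if ω = ω' then (2 : ℝ) ^ n else 0 := by
  have h1 : ∑ A, walsh A ω * walsh A ω' = ∏ i, (1 + sg (ω i) * sg (ω' i)) := by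
    rw [Finset.prod_one_add]
    simp only [Finset.powerset_univ]
    refine Finset.sum_congr rfl fun A _ => ?_
    rw [walsh, walsh, Finset.prod_mul_distrib]
  rw [h1]
  split_ifs with h
  · subst h
    simp only [sg_mul_self]
    norm_num
  · obtain ⟨i, hi⟩ := Function.ne_iff.mp h
    refine Finset.prod_eq_zero (Finset.mem_univ i) ?_
    rw [sg_mul_of_ne hi]
    ring

section

variable {X Y : Type*} [NormedAddCommGroup X] [NormedSpace ℝ X]
  [NormedAddCommGroup Y] [NormedSpace ℝ Y]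

/-- The Walsh coefficients. -/
noncomputable def coef {n : ℕ} (Φ : Cube n → X) (A : Finset (Fin n)) : X :=
  avg fun ω => walsh A ω • Φ ω

theorem parseval {n : ℕ} (b : X →ₗ[ℝ] X →ₗ[ℝ] ℝ) (Φ : Cube n → X) :
    ∑ A, b (coef Φ A) (coef Φ A) = avg fun ω => b (Φ ω) (Φ ω) := by
  have h1 : ∀ A, b (coef Φ A) (coef Φ A) =
      ((2 : ℝ) ^ n)⁻¹ * (((2 : ℝ) ^ n)⁻¹ * ∑ ω, ∑ ω', walsh A ω * walsh A ω' * b (Φ ω) (Φ ω')) := by
    intro A
    unfold coef avg
    simp only [map_smul, map_sum, LinearMap.smul_apply, LinearMap.sum_apply, smul_eq_mul]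
    congr 1
    rw [Finset.sum_comm, Finset.mul_sum]
    refine Finset.sum_congr rfl fun ω _ => ?_
    rw [Finset.mul_sum, Finset.mul_sum, Finset.mul_sum]
    refine Finset.sum_congr rfl fun ω' _ => ?_
    ring
  simp only [h1]
  rw [← Finset.mul_sum, ← Finset.mul_sum]
  unfold avg
  rw [smul_eq_mul]
  congr 1
  have h2 : ∑ A : Finset (Fin n), ∑ ω, ∑ ω', walsh A ω * walsh A ω' * b (Φ ω) (Φ ω') =
      ∑ ω, ∑ ω', (if ω = ω' then (2 : ℝ) ^ n else 0) * b (Φ ω) (Φ ω') := by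
    rw [Finset.sum_comm]
    refine Finset.sum_congr rfl fun ω _ => ?_
    rw [Finset.sum_comm]
    refine Finset.sum_congr rfl fun ω' _ => ?_
    rw [← sum_walsh_mul, Finset.sum_mul]
  rw [h2]
  simp only [ite_mul, zero_mul, Finset.sum_ite_eq, Finset.mem_univ, if_true]
  rw [← Finset.mul_sum, ← mul_assoc, inv_mul_cancel₀ (by positivity), one_mul]

/-- The Riesz kernel. -/
noncomputable def kern {n : ℕ} (t : Fin n → ℝ) (ω : Cube n) : ℝ := ∏ j, (1 + t j * sg (ω j))

theorem kern_eq {n : ℕ} (t : Fin n → ℝ) (ω : Cube n) :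
    kern t ω = ∑ A, (∏ j ∈ A, t j) * walsh A ω := by
  unfold kern walsh
  rw [Finset.prod_one_add]
  simp only [Finset.powerset_univ, Finset.prod_mul_distrib]

theorem kern_nonneg {n : ℕ} {t : Fin n → ℝ} (ht : ∀ j, |t j| ≤ 1) (ω : Cube n) :
    0 ≤ kern t ω := by
  unfold kern
  refine Finset.prod_nonneg fun j _ => ?_
  have h1 : |t j * sg (ω j)| ≤ 1 := by rw [abs_mul, abs_sg, mul_one]; exact ht j
  have := (abs_le.mp h1).1
  linarith

theorem sum_kern {n : ℕ} (t : Fin n → ℝ) : ∑ ω : Cube n, kern t ω = 2 ^ n := by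
  unfold kern
  have h1 := Finset.prod_univ_sum (t := fun _ : Fin n => (Finset.univ : Finset ℤˣ))
    (f := fun j s => 1 + t j * sg s)
  rw [Fintype.piFinset_univ] at h1
  rw [← h1]
  simp only [sum_one_add_sg]
  simp

theorem avg_kern_smul {n : ℕ} (t : Fin n → ℝ) (Φ : Cube n → X) :
    avg (fun ω => kern t ω • Φ ω) = ∑ A, (∏ j ∈ A, t j) • coef Φ A := by
  unfold coef avg
  simp only [kern_eq, Finset.sum_smul, Finset.smul_sum]
  rw [Finset.sum_comm]
  refine Finset.sum_congr rfl fun A _ => ?_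
  refine Finset.sum_congr rfl fun ω _ => ?_
  rw [smul_smul, smul_smul, smul_smul]
  congr 1
  ring

theorem norm_avg_kern_le {n : ℕ} {t : Fin n → ℝ} (ht : ∀ j, |t j| ≤ 1) (Ψ : Cube n → Y) :
    ‖avg (fun ω => kern t ω • Ψ ω)‖ ^ 2 ≤ avg fun ω => kern t ω * ‖Ψ ω‖ ^ 2 := by
  set w : Cube n → ℝ := fun ω => ((2 : ℝ) ^ n)⁻¹ * kern t ω with hw
  have hw0 : ∀ ω, 0 ≤ w ω := fun ω => mul_nonneg (by positivity) (kern_nonneg ht ω)
  have hw1 : ∑ ω, w ω = 1 := by
    rw [hw, ← Finset.mul_sum, sum_kern, inv_mul_cancel₀ (by positivity)]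
  have h1 : avg (fun ω => kern t ω • Ψ ω) = ∑ ω, w ω • Ψ ω := by
    unfold avg
    rw [Finset.smul_sum]
    refine Finset.sum_congr rfl fun ω _ => ?_
    rw [smul_smul]
  have h2 : avg (fun ω => kern t ω * ‖Ψ ω‖ ^ 2) = ∑ ω, w ω * ‖Ψ ω‖ ^ 2 := by
    unfold avg
    rw [Finset.smul_sum]
    refine Finset.sum_congr rfl fun ω _ => ?_
    rw [smul_eq_mul, ← mul_assoc]
  rw [h1, h2]
  have h3 : ‖∑ ω, w ω • Ψ ω‖ ≤ ∑ ω, w ω * ‖Ψ ω‖ := by
    refine (norm_sum_le _ _).trans (Finset.sum_le_sum fun ω _ => ?_)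
    rw [norm_smul, Real.norm_eq_abs, abs_of_nonneg (hw0 ω)]
  calc ‖∑ ω, w ω • Ψ ω‖ ^ 2 ≤ (∑ ω, w ω * ‖Ψ ω‖) ^ 2 := by gcongr
    _ ≤ ∑ ω, w ω * ‖Ψ ω‖ ^ 2 :=
      Real.pow_arith_mean_le_arith_mean_pow _ _ _ (fun ω _ => hw0 ω) hw1
        (fun ω _ => norm_nonneg _) 2

end

/-! ### truncations -/

/-- `δ x` if `|δ x| ≤ 1`, and `0` otherwise. -/
noncomputable def sc (δ x : ℝ) : ℝ := if |δ * x| ≤ 1 then δ * x else 0

/-- `sc δ x` for `k ≠ 1`, and `sc δ x - δ x` for `k = 1`. -/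
noncomputable def tt (k : ℕ) (δ x : ℝ) : ℝ := if k = 1 then sc δ x - δ * x else sc δ x

theorem measurable_sc (δ : ℝ) : Measurable (sc δ) := by
  unfold sc
  refine Measurable.ite ?_ (by fun_prop) measurable_const
  exact measurableSet_le (by fun_prop) measurable_const

theorem measurable_tt (k : ℕ) (δ : ℝ) : Measurable (tt k δ) := by
  unfold tt
  by_cases hk : k = 1
  · simp only [hk, if_true]
    exact (measurable_sc δ).sub (by fun_prop)
  · simp only [hk, if_false]
    exact measurable_sc δ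

theorem abs_sc_le_one (δ x : ℝ) : |sc δ x| ≤ 1 := by
  unfold sc
  split_ifs with h
  · exact h
  · simp

theorem sc_neg (δ x : ℝ) : sc δ (-x) = -sc δ x := by
  unfold sc
  simp only [mul_neg, abs_neg]
  split_ifs <;> simp

theorem tt_neg (k : ℕ) (δ x : ℝ) : tt k δ (-x) = -tt k δ x := by
  unfold tt
  split_ifs
  · rw [sc_neg]; ring
  · rw [sc_neg]

theorem tt_sq_le (k : ℕ) (δ x : ℝ) : tt k δ x ^ 2 ≤ δ ^ 2 * x ^ 2 := by
  unfold tt sc
  split_ifs with h1 h2 h2
  · have : 0 ≤ δ ^ 2 * x ^ 2 := by positivity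
    simpa using this
  · rw [zero_sub, neg_sq, mul_pow]
  · rw [mul_pow]
  · have : 0 ≤ δ ^ 2 * x ^ 2 := by positivity
    simpa using this

theorem tt_one_sq_le (δ x : ℝ) : tt 1 δ x ^ 2 ≤ δ ^ 4 * x ^ 4 := by
  unfold tt sc
  rw [if_pos rfl]
  split_ifs with h2
  · have : 0 ≤ δ ^ 4 * x ^ 4 := by positivity
    simpa using this
  · have h3 : 1 ≤ |δ * x| := (not_le.mp h2).le
    have h4 : 1 ≤ (δ * x) ^ 2 := by
      rw [← sq_abs]
      nlinarith
    have h5 : (0 - δ * x) ^ 2 = (δ * x) ^ 2 := by ring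
    have h6 : δ ^ 4 * x ^ 4 = (δ * x) ^ 2 * (δ * x) ^ 2 := by ring
    rw [h5, h6]
    nlinarith

/-! ### the random part -/

section Random

variable {ν : Measure ℝ} [IsProbabilityMeasure ν]

/-- The hypotheses on the law of the variables. -/
structure Good (ν : Measure ℝ) : Prop where
  symm : MeasurePreserving (fun x : ℝ => -x) ν ν
  two : ∫ x, x ^ 2 ∂ν = 1
  four : Integrable (fun x : ℝ => x ^ 4) ν

theorem Good.integrable_two (h : Good ν) : Integrable (fun x : ℝ => x ^ 2) ν := by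
  by_contra hcon
  have := integral_undef hcon
  rw [h.two] at this
  norm_num at this

theorem Good.integrable_of_sq_le (h : Good ν) {f : ℝ → ℝ} (hf : Measurable f) (C : ℝ)
    (hC : ∀ x, |f x| ≤ C * (1 + x ^ 2)) : Integrable f ν := by
  refine Integrable.mono' (g := fun x => C * (1 + x ^ 2)) ?_ hf.aestronglyMeasurable
    (Eventually.of_forall fun x => by rw [Real.norm_eq_abs]; exact hC x)
  exact ((integrable_const 1).add h.integrable_two).const_mul C

theorem Good.integral_odd (h : Good ν) {f : ℝ → ℝ} (hf : ∀ x, f (-x) = -f x) :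
    ∫ x, f x ∂ν = 0 := by
  have h1 : ∫ x, f (-x) ∂ν = ∫ x, f x ∂ν := by
    have := h.symm.integral_comp (MeasurableEquiv.neg ℝ).measurableEmbedding f
    simpa using this
  simp only [hf, integral_neg] at h1
  linarith

/-- The constant of the estimate. -/
noncomputable def M4 (ν : Measure ℝ) : ℝ := 1 + ∫ x, x ^ 4 ∂ν

theorem one_le_M4 : 1 ≤ M4 ν := by
  unfold M4
  have : 0 ≤ ∫ x, x ^ 4 ∂ν := integral_nonneg fun x => by positivity
  linarith

theorem Good.integrable_tt_mul (h : Good ν) (k l : ℕ) (δ : ℝ) :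
    Integrable (fun x => tt k δ x * tt l δ x) ν := by
  refine h.integrable_of_sq_le ((measurable_tt k δ).mul (measurable_tt l δ)) (δ ^ 2) fun x => ?_
  rw [abs_mul]
  have h1 := tt_sq_le k δ x
  have h2 := tt_sq_le l δ x
  have h3 : |tt k δ x| * |tt l δ x| ≤ (tt k δ x ^ 2 + tt l δ x ^ 2) / 2 := by
    rw [← sq_abs (tt k δ x), ← sq_abs (tt l δ x)]
    nlinarith [sq_nonneg (|tt k δ x| - |tt l δ x|)]
  nlinarith [sq_nonneg δ]

theorem Good.integrable_tt (h : Good ν) (k : ℕ) (δ : ℝ) : Integrable (tt k δ) ν := by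
  refine h.integrable_of_sq_le (measurable_tt k δ) (1 + δ ^ 2) fun x => ?_
  have h1 := tt_sq_le k δ x
  have h3 : |tt k δ x| ≤ (1 + tt k δ x ^ 2) / 2 := by
    rw [← sq_abs (tt k δ x)]
    nlinarith [sq_nonneg (|tt k δ x| - 1)]
  nlinarith [sq_nonneg δ, sq_nonneg x]

theorem Good.integral_tt_sq_le (h : Good ν) (k : ℕ) (δ : ℝ) :
    ∫ x, tt k δ x * tt k δ x ∂ν ≤ δ ^ 2 := by
  calc ∫ x, tt k δ x * tt k δ x ∂ν ≤ ∫ x, δ ^ 2 * x ^ 2 ∂ν := by
        refine integral_mono (h.integrable_tt_mul k k δ) (h.integrable_two.const_mul _) fun x => ?_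
        have := tt_sq_le k δ x
        simp only
        nlinarith
    _ = δ ^ 2 := by rw [integral_const_mul, h.two, mul_one]

theorem Good.integral_tt_one_sq_le (h : Good ν) (δ : ℝ) :
    ∫ x, tt 1 δ x * tt 1 δ x ∂ν ≤ M4 ν * δ ^ 4 := by
  calc ∫ x, tt 1 δ x * tt 1 δ x ∂ν ≤ ∫ x, δ ^ 4 * x ^ 4 ∂ν := by
        refine integral_mono (h.integrable_tt_mul 1 1 δ) (h.four.const_mul _) fun x => ?_
        have := tt_one_sq_le δ x
        simp only
        nlinarith
    _ ≤ M4 ν * δ ^ 4 := by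
      rw [integral_const_mul, M4]
      nlinarith [sq_nonneg (δ ^ 2)]

variable {n : ℕ}

/-- The orthogonal functions. -/
noncomputable def ff (A : Finset (Fin n)) (δ : ℝ) (g : Fin n → ℝ) : ℝ :=
  ∏ i ∈ A, tt A.card δ (g i)

/-- The factors of `ff A δ * ff B δ`. -/
noncomputable def factor (A B : Finset (Fin n)) (δ : ℝ) (i : Fin n) (x : ℝ) : ℝ :=
  (if i ∈ A then tt A.card δ x else 1) * (if i ∈ B then tt B.card δ x else 1)

theorem ff_mul_eq (A B : Finset (Fin n)) (δ : ℝ) (g : Fin n → ℝ) :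
    ff A δ g * ff B δ g = ∏ i, factor A B δ i (g i) := by
  unfold ff factor
  rw [Finset.prod_mul_distrib]
  congr 1
  · rw [Finset.prod_ite_mem]
    simp
  · rw [Finset.prod_ite_mem]
    simp

theorem Good.integrable_factor (h : Good ν) (A B : Finset (Fin n)) (δ : ℝ) (i : Fin n) :
    Integrable (factor A B δ i) ν := by
  unfold factor
  by_cases h1 : i ∈ A <;> by_cases h2 : i ∈ B
  · simp only [h1, h2, if_true]; exact h.integrable_tt_mul _ _ _
  · simp only [h1, h2, if_true, if_false, mul_one]; exact h.integrable_tt _ _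
  · simp only [h1, h2, if_true, if_false, one_mul]; exact h.integrable_tt _ _
  · simp only [h1, h2, if_false, mul_one]; exact integrable_const _

theorem Good.integrable_ff_mul (h : Good ν) (A B : Finset (Fin n)) (δ : ℝ) :
    Integrable (fun g => ff A δ g * ff B δ g) (Measure.pi fun _ : Fin n => ν) := by
  simp only [ff_mul_eq]
  exact Integrable.fintype_prod fun i => h.integrable_factor A B δ i

theorem Good.integral_ff_mul_of_ne (h : Good ν) {A B : Finset (Fin n)} (hAB : A ≠ B) (δ : ℝ) :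
    ∫ g, ff A δ g * ff B δ g ∂(Measure.pi fun _ : Fin n => ν) = 0 := by
  simp only [ff_mul_eq]
  rw [integral_fintype_prod_eq_prod]
  obtain ⟨i, hi⟩ : ∃ i, ¬ (i ∈ A ↔ i ∈ B) := by
    by_contra hcon
    push Not at hcon
    exact hAB (Finset.ext hcon)
  refine Finset.prod_eq_zero (Finset.mem_univ i) ?_
  refine h.integral_odd fun x => ?_
  unfold factor
  by_cases h1 : i ∈ A
  · have h2 : i ∉ B := fun h2 => hi ⟨fun _ => h2, fun _ => h1⟩
    simp only [h1, h2, if_true, if_false, mul_one, tt_neg]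
  · have h2 : i ∈ B := by
      by_contra h2
      exact hi ⟨fun h3 => absurd h3 h1, fun h3 => absurd h3 h2⟩
    simp only [h1, h2, if_true, if_false, one_mul, tt_neg]

theorem Good.integral_ff_sq_le (h : Good ν) {A : Finset (Fin n)} (hA : A.Nonempty) {δ : ℝ}
    (hδ0 : 0 ≤ δ) (hδ : δ ≤ 1) :
    ∫ g, ff A δ g * ff A δ g ∂(Measure.pi fun _ : Fin n => ν) ≤ M4 ν * δ ^ 4 := by
  simp only [ff_mul_eq]
  rw [integral_fintype_prod_eq_prod]
  have h1 : ∏ i, ∫ x, factor A A δ i x ∂ν =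
      (∫ x, tt A.card δ x * tt A.card δ x ∂ν) ^ A.card := by
    have h2 : ∀ i, ∫ x, factor A A δ i x ∂ν =
        if i ∈ A then ∫ x, tt A.card δ x * tt A.card δ x ∂ν else 1 := by
      intro i
      unfold factor
      split_ifs with h3
      · rfl
      · simp
    simp only [h2]
    rw [Finset.prod_ite_mem]
    simp
  rw [h1]
  have hnn : ∀ k, 0 ≤ ∫ x, tt k δ x * tt k δ x ∂ν := fun k =>
    integral_nonneg fun x => mul_self_nonneg _
  by_cases hc : A.card = 1
  · rw [hc, pow_one]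
    exact h.integral_tt_one_sq_le δ
  · have h2 : 2 ≤ A.card := by
      have := Finset.card_pos.mpr hA
      omega
    have h3 := h.integral_tt_sq_le A.card δ
    have h4 := one_le_M4 (ν := ν)
    calc (∫ x, tt A.card δ x * tt A.card δ x ∂ν) ^ A.card ≤ (δ ^ 2) ^ A.card :=
          pow_le_pow_left₀ (hnn _) h3 _
      _ ≤ (δ ^ 2) ^ 2 := by
          refine pow_le_pow_of_le_one (by positivity) ?_ h2
          nlinarith
      _ = 1 * δ ^ 4 := by ring
      _ ≤ M4 ν * δ ^ 4 := by gcongr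

end Random

end Pool.Agent.H17.Pisier
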